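import Pool.Agent.Lib.MP_18f39a_lc.Conv

set_option autoImplicit false

open Set Topology Filter

namespace Pool.Agent.Lib.MP_18f39a_lc

/-- Martin's lemma: a Borel set cofinal in the Turing degrees contains a pointed perfect set. -/
theorem pointed_of_cofinal {A : Set C} (hA : MeasurableSet A) (h : ∀ z, ∃ x ∈ A, Red z x) :
    ∃ t, Pointed t ∧ ∀ u, (∀ n, t (pre u n) = true) → u ∈ A := by
  obtain ⟨ev, Tot, e1, e2, -, e4, e5⟩ := exists_ev
  rcases dichotomy (κ := ev) e1 (A := fun e => Tot e ∩ A) (fun e => (e2 e).inter hA) with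
    ⟨τ, hτ⟩ | ⟨e, σ, hσ⟩
  · obtain ⟨x, hx, hr⟩ := h τ
    obtain ⟨e, he, he'⟩ := e5 _ _ hr
    exact absurd ⟨he, hx⟩ (hτ e x he')
  · obtain ⟨t, ht, hu⟩ := exists_pointed (g := Play σ)
      (Continuous.play' continuous_const continuous_id)
      (fun c c' e' => by rw [← (hσ c).2, e', (hσ c').2])
      (fun c => by
        have := (e4 _ _ (hσ c).1.1).app e
        rwa [(hσ c).2] at this) σ
    refine ⟨t, ht, fun u hu' => ?_⟩
    obtain ⟨c, -, rfl⟩ := hu u hu'
    exact (hσ c).1.2

theorem primrec_getD : Primrec fun p : ℕ => ((dec p.unpair.1).getD p.unpair.2 false).toNat := by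
  have h1 : Primrec fun p : ℕ => (dec p.unpair.1).getD p.unpair.2 false :=
    (Primrec.list_getD false).comp (primrec_dec.comp (Primrec.fst.comp Primrec.unpair))
      (Primrec.snd.comp Primrec.unpair)
  exact (Primrec.dom_bool Bool.toNat).comp h1

theorem pre_getD (a : C) {n k : ℕ} (h : k < n) : (pre a n).getD k false = a k := by
  simp [pre, h]

/-- A real that is followed by the pointers of `x` from some level on is computable from `x`. -/
theorem red_follow {x a : C} {L : ℕ}
    (h : ∀ n, L ≤ n → x (Encodable.encode (pre a n)) = a n) : Red a x := by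
  let F : ℕ → ℕ := fun p => Encodable.encode (dec p.unpair.1 ++ [decide (p.unpair.2 = 1)])
  have hF : Primrec F := by
    refine Primrec.encode.comp (Primrec.list_concat.comp
      (primrec_dec.comp (Primrec.fst.comp Primrec.unpair)) ?_)
    exact Primrec.eq.decide.comp (Primrec.snd.comp Primrec.unpair) (Primrec.const 1)
  have hs : CI x fun p => p.unpair.2 := CI.primrec (Primrec.snd.comp Primrec.unpair)
  have hg : CI x fun p => F (Nat.pair p.unpair.2 (x p.unpair.2).toNat) :=
    (CI.primrec hF).comp (hs.pair ((red_iff.1 (Red.refl x)).comp hs))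
  have h1 : CI x fun n => Encodable.encode (pre a (L + n)) := by
    refine (CI.prec (Encodable.encode (pre a L)) hg).of_eq fun n => ?_
    induction n with
    | zero => rfl
    | succ n ih =>
      simp only [Nat.unpair_pair] at ih ⊢
      rw [ih, h (L + n) (by omega), ← Nat.add_assoc, pre_succ]
      simp only [F, Nat.unpair_pair, dec_encode]
      cases a (L + n) <;> rfl
  refine red_iff.2 (((CI.primrec primrec_getD).comp
    ((h1.comp (CI.primrec Primrec.succ)).pair (CI.primrec Primrec.id))).of_eq fun k => ?_)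
  simp only [Nat.unpair_pair, dec_encode, id]
  rw [pre_getD a (by omega)]

theorem red_of_eventually {x y : C} (h : ∀ᶠ n in atTop, x n = y n) : Red x y := by
  obtain ⟨L, hL⟩ := eventually_atTop.1 h
  let F : ℕ → ℕ := fun p => if p.unpair.1 < L then ((pre x L).getD p.unpair.1 false).toNat
    else p.unpair.2
  have hF : Primrec F := by
    refine Primrec.ite (Primrec.nat_lt.comp (Primrec.fst.comp Primrec.unpair) (Primrec.const L))
      ((Primrec.dom_bool Bool.toNat).comp ((Primrec.list_getD false).comp (Primrec.const _)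
        (Primrec.fst.comp Primrec.unpair))) (Primrec.snd.comp Primrec.unpair)
  refine red_iff.2 (((CI.primrec hF).comp
    ((CI.primrec Primrec.id).pair (red_iff.1 (Red.refl y)))).of_eq fun k => ?_)
  simp only [F, Nat.unpair_pair, id]
  split_ifs with hk
  · rw [pre_getD x hk]
  · rw [hL k (by omega)]

open Classical in
/-- At the node `s` point along the first member of the list `y` that passes through `s`. -/
noncomputable def val (y : ℕ → C) (s : List Bool) : Bool :=
  if h : ∃ i, pre (y i) s.length = s then y (Nat.find h) s.length else false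

/-- The pointer map of a list of reals, as a point of Cantor space. -/
noncomputable def psi (y : ℕ → C) : C :=
  Function.extend (Encodable.encode : List Bool → ℕ) (val y) fun _ => false

theorem psi_encode (y : ℕ → C) (s : List Bool) : psi y (Encodable.encode s) = val y s :=
  Encodable.encode_injective.extend_apply _ _ _

theorem sep {S : Set C} (hS : S.Finite) :
    ∃ L, ∀ n, L ≤ n → ∀ a ∈ S, ∀ b ∈ S, pre a n = pre b n → a = b := by
  have : ∀ᶠ n in atTop, ∀ a ∈ S, ∀ b ∈ S, pre a n = pre b n → a = b := by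
    refine (eventually_all_finite hS).2 fun a _ => (eventually_all_finite hS).2 fun b _ => ?_
    by_cases hab : a = b
    · exact Eventually.of_forall fun _ _ => hab
    · obtain ⟨k, hk⟩ := Function.ne_iff.1 hab
      exact (eventually_gt_atTop k).mono fun n hn e => absurd (pre_eq_iff.1 e k hn) hk
  exact eventually_atTop.1 this

theorem red_psi (y : ℕ → C) (i : ℕ) : Red (y i) (psi y) := by
  classical
  obtain ⟨L, hL⟩ := sep ((finite_le_nat i).image y)
  refine red_follow (L := L) fun n hn => ?_
  have h : ∃ j, pre (y j) (pre (y i) n).length = pre (y i) n := ⟨i, by rw [pre_length]⟩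
  rw [psi_encode, val, dif_pos h]
  have h1 := Nat.find_spec h
  have h2 : Nat.find h ≤ i := Nat.find_min' h (by rw [pre_length])
  have h3 : pre (y (Nat.find h)) n = pre (y i) n := by simpa only [pre_length] using h1
  rw [hL n hn _ ⟨_, h2, rfl⟩ _ ⟨i, le_refl i, rfl⟩ h3, pre_length]

theorem psi_eventually {y y' : ℕ → C} {m : ℕ} (h : ∀ i, m ≤ i → y i = y' i)
    (h1 : ∀ i < m, ∃ j < m, y i = y' j) (h2 : ∀ j < m, ∃ i < m, y' j = y i) :
    ∀ᶠ k in atTop, psi y k = psi y' k := by
  classical
  obtain ⟨L, hL⟩ := sep ((finite_lt_nat m).image y)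
  have hfin : ((Encodable.encode : List Bool → ℕ) '' {s | s.length < L}).Finite :=
    (List.finite_length_lt Bool L).image _
  rw [← Nat.cofinite_eq_atTop]
  refine (hfin.eventually_cofinite_notMem).mono fun k hk => ?_
  by_cases hk' : ∃ s : List Bool, Encodable.encode s = k
  · obtain ⟨s, rfl⟩ := hk'
    have hs : L ≤ s.length := by
      by_contra hc
      exact hk ⟨s, not_le.1 hc, rfl⟩
    rw [psi_encode, psi_encode]
    by_cases hm : ∃ i < m, pre (y i) s.length = s
    · obtain ⟨i, hi, e⟩ := hm
      obtain ⟨j, hj, e'⟩ := h1 i hi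
      have a1 : ∃ i, pre (y i) s.length = s := ⟨i, e⟩
      have a2 : ∃ i, pre (y' i) s.length = s := ⟨j, e' ▸ e⟩
      rw [val, val, dif_pos a1, dif_pos a2]
      have b1 : Nat.find a1 < m := lt_of_le_of_lt (Nat.find_min' a1 e) hi
      have b2 : Nat.find a2 < m := lt_of_le_of_lt (Nat.find_min' a2 (e' ▸ e)) hj
      obtain ⟨i', hi', e''⟩ := h2 _ b2
      have c2 := Nat.find_spec a2
      rw [e''] at c2 ⊢
      rw [hL _ hs _ ⟨_, b1, rfl⟩ _ ⟨_, hi', rfl⟩ ((Nat.find_spec a1).trans c2.symm)]
    · have hiff : ∀ i, pre (y i) s.length = s ↔ pre (y' i) s.length = s := by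
        intro i
        by_cases hi : m ≤ i
        · rw [h i hi]
        · refine ⟨fun e => absurd ⟨i, not_le.1 hi, e⟩ hm, fun e => ?_⟩
          obtain ⟨i', hi', e'⟩ := h2 i (not_le.1 hi)
          exact absurd ⟨i', hi', e' ▸ e⟩ hm
      by_cases a1 : ∃ i, pre (y i) s.length = s
      · have a2 : ∃ i, pre (y' i) s.length = s := a1.imp fun i => (hiff i).1
        rw [val, val, dif_pos a1, dif_pos a2]
        have : Nat.find a2 = Nat.find a1 := le_antisymm
          (Nat.find_min' a2 ((hiff _).1 (Nat.find_spec a1)))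
          (Nat.find_min' a1 ((hiff _).2 (Nat.find_spec a2)))
        rw [this, h]
        by_contra hc
        exact hm ⟨_, not_le.1 hc, Nat.find_spec a1⟩
      · have a2 : ¬∃ i, pre (y' i) s.length = s := fun a => a1 (a.imp fun i => (hiff i).2)
        rw [val, val, dif_neg a1, dif_neg a2]
  · rw [psi, psi, Function.extend_apply' _ _ _ hk', Function.extend_apply' _ _ _ hk']

/-- Cantor space with the discrete topology. -/
def Dsc : Type := C

instance : TopologicalSpace Dsc := ⊥

instance : DiscreteTopology Dsc := ⟨rfl⟩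

theorem psi_true_iff (y : ℕ → C) (s : List Bool) : psi y (Encodable.encode s) = true ↔
    ∃ i, (pre (y i) s.length = s ∧ y i s.length = true) ∧ ∀ j < i, pre (y j) s.length ≠ s := by
  classical
  rw [psi_encode, val]
  constructor
  · intro h
    split_ifs at h with a
    exact ⟨Nat.find a, ⟨Nat.find_spec a, h⟩, fun j hj => Nat.find_min a hj⟩
  · rintro ⟨i, ⟨h1, h2⟩, h3⟩
    have a : ∃ i, pre (y i) s.length = s := ⟨i, h1⟩
    rw [dif_pos a, (Nat.find_eq_iff a).2 ⟨h1, h3⟩]
    exact h2

theorem isOpen_psi (k : ℕ) : IsOpen {y : ℕ → Dsc | psi y k = true} := by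
  by_cases hk : ∃ s : List Bool, Encodable.encode s = k
  · obtain ⟨s, rfl⟩ := hk
    have : {y : ℕ → Dsc | psi y (Encodable.encode s) = true} =
        ⋃ i, ((fun y : ℕ → Dsc => y i) ⁻¹' {a | pre a s.length = s ∧ (a : C) s.length = true} ∩
          ⋂ j ∈ {j | j < i}, (fun y : ℕ → Dsc => y j) ⁻¹' {a | pre a s.length ≠ s}) := by
      ext y
      refine (psi_true_iff y s).trans ?_
      rw [mem_iUnion]
      refine exists_congr fun i => and_congr Iff.rfl ?_
      rw [mem_iInter₂]
      rfl
    rw [this]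
    exact isOpen_iUnion fun i => ((isOpen_discrete _).preimage (continuous_apply i)).inter
      ((finite_lt_nat i).isOpen_biInter fun j _ =>
        (isOpen_discrete _).preimage (continuous_apply j))
  · have : {y : ℕ → Dsc | psi y k = true} = ∅ := by
      refine eq_empty_of_forall_notMem fun y hy => ?_
      have h : psi y k = false := Function.extend_apply' _ _ _ hk
      exact Bool.false_ne_true (h.symm.trans hy)
    rw [this]
    exact isOpen_empty

/-- Swap the first two blocks of length `n`. -/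
def swapB (n i : ℕ) : ℕ := if i < n then i + n else if i < 2 * n then i - n else i

theorem exists_cyl {U : Set (ℕ → Dsc)} (hU : IsOpen U) {p : ℕ → Dsc} (hp : p ∈ U) :
    ∃ n, ∀ y : ℕ → Dsc, (∀ i < n, y i = p i) → y ∈ U := by
  obtain ⟨I, u, h1, h2⟩ := isOpen_pi_iff.1 hU _ hp
  refine ⟨I.sup id + 1, fun y hy => h2 fun i hi => ?_⟩
  rw [hy i (Nat.lt_succ_of_le (Finset.le_sup (f := id) hi))]
  exact (h1 i hi).2

theorem isOpen_cyl (p : ℕ → Dsc) (n : ℕ) : IsOpen {y : ℕ → Dsc | ∀ i < n, y i = p i} := by
  have : {y : ℕ → Dsc | ∀ i < n, y i = p i} =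
      ⋂ i ∈ {i | i < n}, (fun y : ℕ → Dsc => y i) ⁻¹' {p i} := by
    ext y
    simp
  rw [this]
  exact (finite_lt_nat n).isOpen_biInter fun j _ =>
    (isOpen_discrete _).preimage (continuous_apply j)

theorem residual_col (a : C) : ∀ᶠ y : ℕ → Dsc in residual _, ∃ i, y i = a := by
  refine residual_of_dense_open ?_ (dense_iff_inter_open.2 fun U hU ⟨p, hp⟩ => ?_)
  · have : {y : ℕ → Dsc | ∃ i, y i = a} = ⋃ i, (fun y : ℕ → Dsc => y i) ⁻¹' {a} := by
      ext y
      rw [mem_iUnion]
      rfl
    rw [this]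
    exact isOpen_iUnion fun i => (isOpen_discrete _).preimage (continuous_apply i)
  · obtain ⟨n, hn⟩ := exists_cyl hU hp
    exact ⟨Function.update p n a, hn _ fun i hi => Function.update_of_ne (by omega) _ _,
      n, Function.update_self ..⟩

/-- Topological zero-one law for the block swaps. -/
theorem zero_one {A : Set (ℕ → Dsc)} (hA : BaireMeasurableSet A)
    (h : ∀ n, ∀ᶠ y : ℕ → Dsc in residual _, y ∈ A → y ∘ swapB n ∈ A) :
    A ∈ residual _ ∨ Aᶜ ∈ residual _ := by
  obtain ⟨U, hU, hAU⟩ := hA.residualEq_isOpen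
  obtain ⟨V, hV, hAV⟩ := hA.compl.residualEq_isOpen
  rcases U.eq_empty_or_nonempty with rfl | ⟨p, hp⟩
  · exact Or.inr (hAU.mem_iff.mono fun y hy hy' => hy.1 hy')
  rcases V.eq_empty_or_nonempty with rfl | ⟨q, hq⟩
  · exact Or.inl (hAV.mem_iff.mono fun y hy => not_not.1 fun hy' => hy.1 hy')
  exfalso
  obtain ⟨n1, h1⟩ := exists_cyl hU hp
  obtain ⟨n2, h2⟩ := exists_cyl hV hq
  let n := n1 + n2
  have hinv : ∀ i, swapB n (swapB n i) = i := fun i => by
    unfold swapB
    split_ifs <;> omega
  let σ : (ℕ → Dsc) ≃ₜ (ℕ → Dsc) :=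
    { toFun := fun y => y ∘ swapB n
      invFun := fun y => y ∘ swapB n
      left_inv := fun y => funext fun i => by simp [hinv]
      right_inv := fun y => funext fun i => by simp [hinv]
      continuous_toFun := continuous_pi fun _ => continuous_apply _
      continuous_invFun := continuous_pi fun _ => continuous_apply _ }
  have h3 : ∀ᶠ y : ℕ → Dsc in residual _, (σ y ∈ Aᶜ ↔ σ y ∈ V) :=
    (tendsto_residual_of_isOpenMap σ.continuous σ.isOpenMap).eventually hAV.mem_iff
  let r : ℕ → Dsc := fun i => if i < n then p i else q (i - n)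
  obtain ⟨y, hy, ⟨a1, a2⟩, a3⟩ :=
    (dense_of_mem_residual ((hAU.mem_iff.and h3).and (h n))).inter_open_nonempty _
      (isOpen_cyl r (2 * n)) ⟨r, fun _ _ => rfl⟩
  refine a2.2 (h2 _ fun i hi => ?_) (a3 (a1.2 (h1 _ fun i hi => ?_)))
  · have : swapB n i = i + n := if_pos (by omega)
    change y (swapB n i) = q i
    rw [this, hy _ (by omega)]
    simp [r]
  · rw [hy _ (by omega)]
    exact if_pos (by omega)

theorem zero_one_psi {A R : Set C} (hA : MeasurableSet A)
    (hR : ∀ᶠ y : ℕ → Dsc in residual _, psi y ∈ R)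
    (h : ∀ x ∈ R, x ∈ A → ∀ y, (∀ᶠ n in atTop, x n = y n) → y ∈ A) :
    (∀ᶠ y : ℕ → Dsc in residual _, psi y ∈ A) ∨ ∀ᶠ y : ℕ → Dsc in residual _, psi y ∉ A := by
  let _ : MeasurableSpace (ℕ → Dsc) := borel _
  have : BorelSpace (ℕ → Dsc) := ⟨rfl⟩
  have hψ : Measurable fun y : ℕ → Dsc => psi y :=
    measurable_pi_lambda _ fun k => measurable_to_bool (isOpen_psi k).measurableSet
  refine zero_one (hψ hA).baireMeasurableSet fun n => hR.mono fun y hy hy' =>
    h (psi y) hy hy' (psi (y ∘ swapB n))
      (psi_eventually (m := 2 * n) (fun i hi => ?_) (fun i hi => ?_) (fun i hi => ?_))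
  · have : swapB n i = i := by
      unfold swapB
      split_ifs <;> omega
    exact congrArg y this.symm
  · refine ⟨swapB n i, ?_, ?_⟩
    · unfold swapB
      split_ifs <;> omega
    · have : swapB n (swapB n i) = i := by
        unfold swapB
        split_ifs <;> omega
      exact congrArg y this.symm
  · refine ⟨swapB n i, ?_, rfl⟩
    unfold swapB
    split_ifs <;> omega

/-- Overwrite an initial segment. -/
def ov (l : List Bool) (x : C) : C := fun n => if n < l.length then l.getD n false else x n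

theorem continuous_ov (l : List Bool) : Continuous (ov l) := by
  refine continuous_pi fun n => ?_
  unfold ov
  split_ifs
  · exact continuous_const
  · exact continuous_apply _

theorem eventually_iff_ov {x y : C} : (∀ᶠ n in atTop, x n = y n) ↔ ∃ l, ov l x = y := by
  constructor
  · intro h
    obtain ⟨L, hL⟩ := eventually_atTop.1 h
    refine ⟨pre y L, funext fun n => ?_⟩
    rw [ov, pre_length]
    split_ifs with hn
    · exact pre_getD y hn
    · exact hL n (by omega)
  · rintro ⟨l, rfl⟩
    exact (eventually_ge_atTop l.length).mono fun n hn => (if_neg (by omega)).symm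

/-- If on a cone every class of eventual equality lies in a fibre of one of countably many Borel
maps, then one of the maps has a fibre that is cofinal in the Turing degrees. -/
theorem cofinal_fibre {F : ℕ → C → C} (hF : ∀ N, Measurable (F N)) {b : C}
    (h : ∀ x, Red b x → ∃ N, ∀ y, (∀ᶠ n in atTop, x n = y n) → F N x = F N y) :
    ∃ N c, ∀ z, ∃ x, Red z x ∧ F N x = c := by
  have : Nonempty (ℕ → Dsc) := ⟨fun _ => b⟩
  let B : ℕ → Set C := fun N => {x | ∀ y, (∀ᶠ n in atTop, x n = y n) → F N x = F N y}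
  have hB : ∀ N, MeasurableSet (B N) := fun N => by
    have : B N = ⋂ l, {x | F N x = F N (ov l x)} := by
      ext x
      simp only [B, eventually_iff_ov, mem_iInter, mem_ofPred_eq]
      exact ⟨fun h l => h _ ⟨l, rfl⟩, fun h y ⟨l, e⟩ => e ▸ h l⟩
    rw [this]
    exact MeasurableSet.iInter fun l =>
      measurableSet_eq_fun (hF N) ((hF N).comp (continuous_ov l).measurable)
  obtain ⟨N, hN⟩ : ∃ N, ∀ᶠ y : ℕ → Dsc in residual _, psi y ∈ B N := by
    by_contra hc
    have h1 : ∀ N, ∀ᶠ y : ℕ → Dsc in residual _, psi y ∉ B N := fun N =>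
      (zero_one_psi (R := univ) (hB N) (Eventually.of_forall fun _ => trivial)
        fun x _ hx y hy w hw => (hx y hy).symm.trans
          (hx w ((hy.and hw).mono fun _ e => e.1.trans e.2))).resolve_left fun e => hc ⟨N, e⟩
    obtain ⟨y, ⟨i, hi⟩, hy⟩ := (dense_of_mem_residual
      ((residual_col b).and (eventually_countable_forall.2 h1))).nonempty
    obtain ⟨N, hN⟩ := h (psi y) (hi ▸ red_psi y i)
    exact hy N hN
  have key : ∀ k, ∃ v, ∀ᶠ y : ℕ → Dsc in residual _, F N (psi y) k = v := by
    intro k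
    rcases zero_one_psi (A := {x | F N x k = true})
      (((measurable_pi_apply k).comp (hF N)) (measurableSet_singleton true)) hN
      (fun x hx hx' y hy => (congrFun (hx y hy) k).symm.trans hx') with h1 | h1
    · exact ⟨true, h1⟩
    · exact ⟨false, h1.mono fun y hy => by simpa using hy⟩
  choose c hc using key
  refine ⟨N, c, fun z => ?_⟩
  obtain ⟨y, ⟨i, hi⟩, hy⟩ := (dense_of_mem_residual
    ((residual_col z).and (eventually_countable_forall.2 hc))).nonempty
  exact ⟨psi y, hi ▸ red_psi y i, funext hy⟩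

theorem concl_iff_finite_change {E : ℕ → C → C → Prop} {j : ℕ → C → C}
    (hj : ∀ n, Measurable (j n)) (hE : ∀ n x y, E n x y ↔ TEq x y ∧ j n x = j n y) :
    Concl E ↔ ∃ (f : C → C) (b : C), Measurable f ∧ ∀ x, Red b x → Red x (f x) ∧
      ∃ N, ∀ y, (∀ᶠ n in atTop, x n = y n) → j N (f x) = j N (f y) := by
  constructor
  · rintro ⟨t, i, ht, h⟩
    obtain ⟨g, g1, g2, g3⟩ := ht.coding
    obtain ⟨b, hb⟩ := exists_code' g1
    have key : ∀ x, Red b x → TEq (g x) x := fun x hx => TEq.mk' (hb x hx) (g3 x)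
    refine ⟨g, b, g1.measurable, fun x hx => ⟨g3 x, i, fun y hy => ?_⟩⟩
    have h1 : TEq x y := TEq.mk' (red_of_eventually hy)
      (red_of_eventually (hy.mono fun _ e => e.symm))
    exact ((hE _ _ _).1 ((h _ _ (g2 _) (g2 _)).2
      ((key x hx).trans (h1.trans (key y (hx.trans h1.le)).symm)))).2
  · rintro ⟨f, b, hf, h⟩
    obtain ⟨N, c, hc⟩ := cofinal_fibre (fun N => (hj N).comp hf) fun x hx => (h x hx).2
    obtain ⟨t, ht, hu⟩ := pointed_of_cofinal (A := {u | j N u = c})
      (measurableSet_eq_fun (hj N) measurable_const) fun z => by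
        obtain ⟨x, h1, h2⟩ := hc (join b z)
        exact ⟨f x, h2, ((red_right b z).trans h1).trans (h x ((red_left b z).trans h1)).1⟩
    exact ⟨t, N, ht, fun x y hx hy => (hE _ _ _).trans
      ⟨And.left, fun e => ⟨e, (hu x hx).trans (hu y hy).symm⟩⟩⟩

end Pool.Agent.Lib.MP_18f39a_lc
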