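import Mathlib

set_option autoImplicit false

open Set Topology Filter

namespace Pool.Agent.Lib.MP_18f39a_lc

abbrev C := ℕ → Bool

/-- The oracle attached to a point of Cantor space. -/
abbrev orc (x : C) : ℕ →. ℕ := fun k => Part.some (x k).toNat

/-- `y` is Turing reducible to `x`. -/
def Red (y x : C) : Prop := TuringReducible (orc y) (orc x)

def TEq (x y : C) : Prop := TuringEquivalent (orc x) (orc y)

theorem Red.refl (x : C) : Red x x := TuringReducible.refl _

theorem Red.trans {x y z : C} (h : Red x y) (h' : Red y z) : Red x z :=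
  TuringReducible.trans h h'

theorem TEq.le {x y : C} (h : TEq x y) : Red x y := h.1

theorem TEq.ge {x y : C} (h : TEq x y) : Red y x := h.2

theorem TEq.mk' {x y : C} (h : Red x y) (h' : Red y x) : TEq x y := ⟨h, h'⟩

theorem TEq.symm {x y : C} (h : TEq x y) : TEq y x := ⟨h.2, h.1⟩

theorem TEq.trans {x y z : C} (h : TEq x y) (h' : TEq y z) : TEq x z :=
  ⟨h.le.trans h'.le, h'.ge.trans h.ge⟩

/-- Total functions computable from `x`. -/
def CI (x : C) (f : ℕ → ℕ) : Prop := Nat.RecursiveIn {orc x} (fun n => Part.some (f n))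

theorem red_iff {y x : C} : Red y x ↔ CI x (fun k => (y k).toNat) := RecursiveIn.iff_nat

theorem CI.of_eq {x : C} {f g : ℕ → ℕ} (h : CI x f) (e : ∀ n, f n = g n) : CI x g :=
  (funext e : f = g) ▸ h

theorem CI.computable {x : C} {f : ℕ → ℕ} (h : Computable f) : CI x f :=
  Nat.Partrec.recursiveIn (Partrec.nat_iff.1 h)

theorem CI.primrec {x : C} {f : ℕ → ℕ} (h : Primrec f) : CI x f := CI.computable h.to_comp

theorem CI.comp {x : C} {f g : ℕ → ℕ} (hf : CI x f) (hg : CI x g) : CI x (fun n => f (g n)) :=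
  (Nat.RecursiveIn.comp hf hg).of_eq fun n => by simp

theorem CI.pair {x : C} {f g : ℕ → ℕ} (hf : CI x f) (hg : CI x g) :
    CI x (fun n => Nat.pair (f n) (g n)) :=
  (Nat.RecursiveIn.pair hf hg).of_eq fun n => by simp [Seq.seq]

theorem CI.prec {x : C} {g : ℕ → ℕ} (a : ℕ) (hg : CI x g) :
    CI x (fun n => Nat.rec a (fun y i => g (Nat.pair y i)) n) := by
  have h1 : CI x (fun _ => a) := CI.primrec (Primrec.const a)
  have h2 : CI x (fun p => g p.unpair.2) := hg.comp (CI.primrec (Primrec.snd.comp Primrec.unpair))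
  have h3 : CI x (fun p => Nat.rec a (fun y i => g (Nat.pair y i)) p.unpair.2) := by
    refine (Nat.RecursiveIn.prec h1 h2).of_eq fun p => ?_
    simp only
    generalize p.unpair.2 = n
    induction n with
    | zero => rfl
    | succ n ih => simp only [ih]; simp
  have h4 : CI x (fun n => Nat.pair 0 n) :=
    CI.primrec (Primrec₂.natPair.comp (Primrec.const 0) Primrec.id)
  exact (h3.comp h4).of_eq fun n => by simp

theorem CI.find {x : C} {f : ℕ → ℕ} (hf : CI x f) (H : ∀ a, ∃ n, f (Nat.pair a n) = 0) :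
    CI x (fun a => Nat.find (H a)) := by
  refine (Nat.RecursiveIn.rfind hf).of_eq fun a => ?_
  rw [Part.eq_some_iff, Nat.mem_rfind]
  refine ⟨by simp [Nat.find_spec (H a)], fun {m} hm => ?_⟩
  simpa using Nat.find_min (H a) hm

theorem Red.comp_computable (x : C) {g : ℕ → ℕ} (hg : Computable g) : Red (x ∘ g) x :=
  red_iff.2 ((red_iff.1 (Red.refl x)).comp (CI.computable hg))

/-- Initial segments. -/
def pre (x : C) (n : ℕ) : List Bool := List.ofFn fun j : Fin n => x j

theorem pre_succ (x : C) (n : ℕ) : pre x (n + 1) = pre x n ++ [x n] := by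
  rw [pre, List.ofFn_succ', List.concat_eq_append]
  rfl

theorem pre_length (x : C) (n : ℕ) : (pre x n).length = n := by simp [pre]

theorem pre_eq_iff {x y : C} {n : ℕ} : pre x n = pre y n ↔ ∀ i < n, x i = y i := by
  simp only [pre, List.ofFn_inj, funext_iff]
  exact ⟨fun h i hi => h ⟨i, hi⟩, fun h i => h i i.2⟩

theorem continuous_pre (n : ℕ) {Y : Type} [TopologicalSpace Y] (g : List Bool → Y) :
    Continuous fun x : C => g (pre x n) := by
  have : (fun x : C => g (pre x n)) =
      (fun v : Fin n → Bool => g (List.ofFn v)) ∘ (fun (x : C) (i : Fin n) => x i) := rfl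
  rw [this]
  exact continuous_of_discreteTopology.comp (continuous_pi fun _ => continuous_apply _)

theorem CI.pre (x : C) : CI x (fun n => Encodable.encode (pre x n)) := by
  let F : ℕ → ℕ := fun p => Encodable.encode
    (((Encodable.decode p.unpair.1 : Option (List Bool)).getD []) ++ [decide (p.unpair.2 = 1)])
  have hF : Primrec F := by
    refine Primrec.encode.comp (Primrec.list_append.comp
      (Primrec.option_getD.comp (Primrec.decode.comp (Primrec.fst.comp Primrec.unpair))
        (Primrec.const [])) ?_)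
    refine Primrec.list_cons.comp ?_ (Primrec.const [])
    exact (Primrec.eq.comp (Primrec.snd.comp Primrec.unpair) (Primrec.const 1)).decide
  have h1 : CI x (fun p => F (Nat.pair p.unpair.2 (x p.unpair.1).toNat)) :=
    (CI.primrec hF).comp ((CI.primrec (Primrec.snd.comp Primrec.unpair)).pair
      ((red_iff.1 (Red.refl x)).comp (CI.primrec (Primrec.fst.comp Primrec.unpair))))
  refine (CI.prec (Encodable.encode ([] : List Bool)) h1).of_eq fun n => ?_
  induction n with
  | zero => rfl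
  | succ n ih =>
    refine (congrArg (fun i => F (Nat.pair (Nat.unpair (Nat.pair n i)).2
      (x (Nat.unpair (Nat.pair n i)).1).toNat)) ih).trans ?_
    simp only [F, Nat.unpair_pair, Encodable.encodek, Option.getD_some, pre_succ]
    cases x n <;> simp

theorem exists_pre_of_mem_nhds {x : C} {U : Set C} (h : U ∈ 𝓝 x) :
    ∃ n, ∀ y, pre y n = pre x n → y ∈ U := by
  obtain ⟨V, hV, ho, hx⟩ := mem_nhds_iff.1 h
  obtain ⟨I, u, h1, h2⟩ := isOpen_pi_iff.1 ho _ hx
  refine ⟨I.sup id + 1, fun y e => hV (h2 fun i hi => ?_)⟩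
  rw [pre_eq_iff.1 e i (Nat.lt_succ_of_le (Finset.le_sup (f := id) hi))]
  exact (h1 i hi).2

/-- Continuous maps are computable from an oracle. -/
theorem exists_code {D : Set C} {Θ : C → C} (h : ContinuousOn Θ D) :
    ∃ b : C, ∀ x ∈ D, Red b x → Red (Θ x) x := by
  classical
  let dec : ℕ → ℕ → Prop := fun k c =>
    ∃ v, ∀ x ∈ D, ∀ n, Encodable.encode (pre x n) = c → Θ x k = v
  let val : ℕ → ℕ → Bool := fun k c => if h : dec k c then h.choose else false
  let b : C := fun m => if m.unpair.1 % 2 = 0 then !(decide (dec (m.unpair.1 / 2) m.unpair.2))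
    else val (m.unpair.1 / 2) m.unpair.2
  refine ⟨b, fun x hx hb => red_iff.2 ?_⟩
  have hb' := red_iff.1 hb
  have hl : CI x (fun p => p.unpair.1) := CI.primrec (Primrec.fst.comp Primrec.unpair)
  have hr : CI x (fun p => p.unpair.2) := CI.primrec (Primrec.snd.comp Primrec.unpair)
  have h2 : CI x (fun p => 2 * p) := CI.primrec (Primrec.nat_mul.comp (Primrec.const 2) Primrec.id)
  have h3 : CI x (fun p => 2 * p + 1) :=
    CI.primrec (Primrec.succ.comp (Primrec.nat_mul.comp (Primrec.const 2) Primrec.id))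
  have hf := hb'.comp ((h2.comp hl).pair ((CI.pre x).comp hr))
  have H : ∀ a, ∃ n, (fun p : ℕ => (b (Nat.pair (2 * p.unpair.1)
      (Encodable.encode (pre x p.unpair.2)))).toNat) (Nat.pair a n) = 0 := by
    intro a
    have hc : ContinuousWithinAt (fun y => Θ y a) D x :=
      (continuous_apply a).continuousAt.comp_continuousWithinAt (h x hx)
    have : {y | y ∈ D → Θ y a = Θ x a} ∈ 𝓝 x := by
      have := hc ((isOpen_discrete {Θ x a}).mem_nhds rfl)
      exact eventually_nhdsWithin_iff.1 this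
    obtain ⟨n, hn⟩ := exists_pre_of_mem_nhds this
    refine ⟨n, ?_⟩
    have hd : dec a (Encodable.encode (pre x n)) := ⟨Θ x a, fun y hy m e => by
      have e' := Encodable.encode_injective e
      obtain rfl : m = n := by simpa [pre_length] using congrArg List.length e'
      exact hn y e' hy⟩
    simp [b, hd]
  refine (hb'.comp (h3.pair ((CI.pre x).comp (hf.find H)))).of_eq fun k => ?_
  have hd : dec k (Encodable.encode (pre x (Nat.find (H k)))) := by
    have := Nat.find_spec (H k)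
    simpa [b] using this
  generalize Nat.find (H k) = n at hd ⊢
  have e1 : (2 * k + 1) % 2 = 1 := by omega
  have e2 : (2 * k + 1) / 2 = k := by omega
  simp only [b, Nat.unpair_pair, e1, e2, one_ne_zero, if_false, val, dif_pos hd]
  rw [hd.choose_spec x hx _ rfl]

theorem exists_code' {Θ : C → C} (h : Continuous Θ) : ∃ b : C, ∀ x, Red b x → Red (Θ x) x := by
  obtain ⟨b, hb⟩ := exists_code (D := univ) h.continuousOn
  exact ⟨b, fun x => hb x trivial⟩

theorem exists_countable_closed {X K : Type} [Countable K] (S : Set X) (hS : S.Countable)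
    (o : K → X → X → X) (P : X → Prop) (hP : ∀ x ∈ S, P x)
    (ho : ∀ k x y, P x → P y → P (o k x y)) :
    ∃ A : Set X, A.Countable ∧ S ⊆ A ∧ (∀ k, ∀ x ∈ A, ∀ y ∈ A, o k x y ∈ A) ∧ ∀ x ∈ A, P x := by
  let L : ℕ → Set X := fun n => Nat.rec S (fun _ B => B ∪ ⋃ k, image2 (o k) B B) n
  have hL : ∀ n, L (n + 1) = L n ∪ ⋃ k, image2 (o k) (L n) (L n) := fun n => rfl
  have hmono : Monotone L := monotone_nat_of_le_succ fun n => by
    rw [hL]; exact subset_union_left
  refine ⟨⋃ n, L n, countable_iUnion fun n => ?_, subset_iUnion L 0, ?_, ?_⟩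
  · induction n with
    | zero => exact hS
    | succ n ih => rw [hL]; exact ih.union (countable_iUnion fun k => ih.image2 ih _)
  · intro k x hx y hy
    obtain ⟨n, hn⟩ := mem_iUnion.1 hx
    obtain ⟨m, hm⟩ := mem_iUnion.1 hy
    refine mem_iUnion.2 ⟨max n m + 1, ?_⟩
    rw [hL]
    exact Or.inr (mem_iUnion.2 ⟨k, mem_image2_of_mem (hmono (le_max_left _ _) hn)
      (hmono (le_max_right _ _) hm)⟩)
  · intro x hx
    obtain ⟨n, hn⟩ := mem_iUnion.1 hx
    induction n generalizing x with
    | zero => exact hP x hn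
    | succ n ih =>
      rw [hL] at hn
      rcases hn with hn | hn
      · exact ih x (mem_iUnion.2 ⟨n, hn⟩) hn
      · obtain ⟨k, y, hy, z, hz, rfl⟩ := mem_iUnion.1 hn
        exact ho k y z (ih y (mem_iUnion.2 ⟨n, hy⟩) hy) (ih z (mem_iUnion.2 ⟨n, hz⟩) hz)

/-- The four operations on functionals. -/
noncomputable def fop (k : Fin 4) (f h : C → ℕ →. ℕ) (x : C) : ℕ →. ℕ :=
  match k with
  | 0 => fun n => (Nat.pair <$> f x n <*> h x n)
  | 1 => fun n => h x n >>= f x
  | 2 => fun p => let (a, n) := Nat.unpair p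
      n.rec (f x a) fun y IH => do
        let i ← IH
        h x (Nat.pair a (Nat.pair y i))
  | 3 => fun a => Nat.rfind fun n => (fun m => m = 0) <$> f x (Nat.pair a n)

def FGood (f : C → ℕ →. ℕ) : Prop :=
  (∀ x, Nat.RecursiveIn {orc x} (f x)) ∧ ∀ n m, IsOpen {x | m ∈ f x n}

theorem fgood_fop (k : Fin 4) (f h : C → ℕ →. ℕ) (hf : FGood f) (hh : FGood h) :
    FGood (fop k f h) := by
  match k with
  | 0 =>
    refine ⟨fun x => .pair (hf.1 x) (hh.1 x), fun n m => ?_⟩
    have : {x | m ∈ fop 0 f h x n} = {x | m.unpair.1 ∈ f x n} ∩ {x | m.unpair.2 ∈ h x n} := by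
      ext x
      simp only [fop, Seq.seq, Part.map_eq_map, Part.mem_bind_iff, Part.mem_map_iff,
        mem_inter_iff, mem_ofPred_eq]
      constructor
      · rintro ⟨_, ⟨u, hu, rfl⟩, v, hv, rfl⟩
        simp [hu, hv]
      · rintro ⟨hu, hv⟩
        exact ⟨_, ⟨_, hu, rfl⟩, _, hv, by simp⟩
    rw [this]
    exact (hf.2 _ _).inter (hh.2 _ _)
  | 1 =>
    refine ⟨fun x => .comp (hf.1 x) (hh.1 x), fun n m => ?_⟩
    have : {x | m ∈ fop 1 f h x n} = ⋃ u, {x | u ∈ h x n} ∩ {x | m ∈ f x u} := by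
      ext x
      simp [fop]
    rw [this]
    exact isOpen_iUnion fun u => (hh.2 _ _).inter (hf.2 _ _)
  | 2 =>
    refine ⟨fun x => .prec (hf.1 x) (hh.1 x), fun p m => ?_⟩
    simp only [fop]
    generalize p.unpair.2 = n
    induction n generalizing m with
    | zero => exact hf.2 _ _
    | succ n ih =>
      simp only [Part.bind_eq_bind, Part.mem_bind_iff, ofPred_exists]
      exact isOpen_iUnion fun u => (ih u).inter (hh.2 _ _)
  | 3 =>
    refine ⟨fun x => .rfind (hf.1 x), fun a m => ?_⟩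
    have : {x | m ∈ fop 3 f h x a} = {x | 0 ∈ f x (Nat.pair a m)} ∩
        ⋂ j ∈ Iio m, ⋃ v ∈ {v : ℕ | v ≠ 0}, {x | v ∈ f x (Nat.pair a j)} := by
      ext x
      simp only [fop, Nat.mem_rfind, Part.map_eq_map, Part.mem_map_iff, mem_inter_iff,
        mem_ofPred_eq, mem_iInter, mem_iUnion, mem_Iio]
      constructor
      · rintro ⟨⟨u, hu, e⟩, h2⟩
        refine ⟨by simp at e; exact e ▸ hu, fun j hj => ?_⟩
        obtain ⟨v, hv, e⟩ := h2 hj
        exact ⟨v, by simpa using e, hv⟩
      · rintro ⟨h1, h2⟩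
        refine ⟨⟨0, h1, by simp⟩, fun {j} hj => ?_⟩
        obtain ⟨v, e, hv⟩ := h2 j hj
        exact ⟨v, hv, by simpa using e⟩
    rw [this]
    exact (hf.2 _ _).inter ((finite_Iio m).isOpen_biInter fun j _ =>
      isOpen_biUnion fun v _ => hf.2 _ _)

/-- An enumeration of the Turing functionals. -/
theorem exists_ev : ∃ (ev : ℕ → C → C) (Tot : ℕ → Set C), (∀ e, Measurable (ev e)) ∧
    (∀ e, MeasurableSet (Tot e)) ∧ (∀ e, ∀ x ∈ Tot e, ContinuousAt (ev e) x) ∧
    (∀ e, ∀ x ∈ Tot e, Red (ev e x) x) ∧ ∀ x y, Red y x → ∃ e, x ∈ Tot e ∧ ev e x = y := by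
  classical
  let S : Set (C → ℕ →. ℕ) := {fun _ _ => 0, fun _ => (Nat.succ : ℕ →. ℕ),
    fun _ => ((fun n : ℕ => (Nat.unpair n).1) : ℕ →. ℕ),
    fun _ => ((fun n : ℕ => (Nat.unpair n).2) : ℕ →. ℕ), orc}
  obtain ⟨A, hA, hSA, hop, hP⟩ := exists_countable_closed S (Set.toFinite _).countable fop FGood
    (by
      rintro x (rfl | rfl | rfl | rfl | rfl)
      · exact ⟨fun _ => .zero, fun _ _ => isOpen_const⟩
      · exact ⟨fun _ => .succ, fun _ _ => isOpen_const⟩
      · exact ⟨fun _ => .left, fun _ _ => isOpen_const⟩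
      · exact ⟨fun _ => .right, fun _ _ => isOpen_const⟩
      · refine ⟨fun _ => .oracle _ rfl, fun n m => ?_⟩
        exact (isOpen_discrete {v : Bool | m ∈ Part.some v.toNat}).preimage
          (continuous_apply (A := fun _ : ℕ => Bool) n))
    fgood_fop
  have hne : A.Nonempty := ⟨_, hSA (Or.inl rfl)⟩
  obtain ⟨R, rfl⟩ := hA.exists_eq_range hne
  have hR : ∀ e, FGood (R e) := fun e => hP _ ⟨e, rfl⟩
  have hall : ∀ x f, Nat.RecursiveIn {orc x} f → ∃ g ∈ range R, g x = f := by
    intro x f hf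
    induction hf with
    | zero => exact ⟨_, hSA (Or.inl rfl), rfl⟩
    | succ => exact ⟨_, hSA (Or.inr (Or.inl rfl)), rfl⟩
    | left => exact ⟨_, hSA (Or.inr (Or.inr (Or.inl rfl))), rfl⟩
    | right => exact ⟨_, hSA (Or.inr (Or.inr (Or.inr (Or.inl rfl)))), rfl⟩
    | oracle g hg => exact ⟨_, hSA (Or.inr (Or.inr (Or.inr (Or.inr rfl)))), hg.symm⟩
    | pair _ _ ih1 ih2 =>
      obtain ⟨g1, h1, rfl⟩ := ih1
      obtain ⟨g2, h2, rfl⟩ := ih2
      exact ⟨_, hop 0 _ h1 _ h2, rfl⟩
    | comp _ _ ih1 ih2 =>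
      obtain ⟨g1, h1, rfl⟩ := ih1
      obtain ⟨g2, h2, rfl⟩ := ih2
      exact ⟨_, hop 1 _ h1 _ h2, rfl⟩
    | prec _ _ ih1 ih2 =>
      obtain ⟨g1, h1, rfl⟩ := ih1
      obtain ⟨g2, h2, rfl⟩ := ih2
      exact ⟨_, hop 2 _ h1 _ h2, rfl⟩
    | rfind _ ih1 =>
      obtain ⟨g1, h1, rfl⟩ := ih1
      exact ⟨_, hop 3 _ h1 _ h1, rfl⟩
  let ev : ℕ → C → C := fun e x k => decide (1 ∈ R e x k)
  have hev : ∀ e x k (v : Bool), v.toNat ∈ R e x k → ev e x k = v := by
    intro e x k v hv
    cases v with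
    | true => simpa [ev] using hv
    | false =>
      simp only [ev, decide_eq_false_iff_not]
      intro h1
      simpa using Part.mem_unique hv h1
  refine ⟨ev, fun e => {x | ∀ k, ∃ v : Bool, v.toNat ∈ R e x k}, fun e => ?_, fun e => ?_,
    fun e x hx => ?_, fun e x hx => ?_, fun x y h => ?_⟩
  · refine measurable_pi_lambda _ fun k => measurable_to_bool ?_
    have : (fun x => ev e x k) ⁻¹' {true} = {x | 1 ∈ R e x k} := by ext x; simp [ev]
    rw [this]
    exact ((hR e).2 _ _).measurableSet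
  · simp only [ofPred_forall, ofPred_exists]
    exact MeasurableSet.iInter fun k => MeasurableSet.iUnion fun v => ((hR e).2 _ _).measurableSet
  · refine continuousAt_pi.2 fun k => ?_
    obtain ⟨v, hv⟩ := hx k
    refine continuousAt_const.congr (f := fun _ => v) ?_
    filter_upwards [((hR e).2 k v.toNat).mem_nhds hv] with y hy
    exact (hev e y k v hy).symm
  · refine red_iff.2 (((hR e).1 x).of_eq fun k => ?_)
    obtain ⟨v, hv⟩ := hx k
    simp only [hev e x k v hv]
    exact Part.eq_some_iff.2 hv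
  · obtain ⟨_, ⟨e, rfl⟩, he⟩ := hall x _ (red_iff.1 h)
    have : ∀ k, (y k).toNat ∈ R e x k := fun k => by rw [he]; simp
    exact ⟨e, fun k => ⟨y k, this k⟩, funext fun k => hev e x k _ (this k)⟩

end Pool.Agent.Lib.MP_18f39a_lc
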