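import Pool.Agent.Lib.MP_18f39a_lc.Main

set_option autoImplicit false

open Set Topology Filter

namespace Pool.Agent.Lib.MP_18f39a_lc

theorem teq_perm (x : C) {π : ℕ ≃ ℕ} (h : Computable π) : TEq (x ∘ π) x := by
  refine TEq.mk' (Red.comp_computable x h) (red_iff.2 ?_)
  let F : ℕ → ℕ := fun p => if π p.unpair.2 = p.unpair.1 then 0 else 1
  have hF : Computable F := by
    have h1 : Computable fun p : ℕ => decide (π p.unpair.2 = p.unpair.1) :=
      (Primrec.eq.decide.to_comp).comp (h.comp (Primrec.snd.comp Primrec.unpair).to_comp)
        (Primrec.fst.comp Primrec.unpair).to_comp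
    exact (Computable.cond h1 (Computable.const 0) (Computable.const 1)).of_eq fun p => by
      simp [F]
  have H : ∀ a, ∃ n, F (Nat.pair a n) = 0 := fun a => ⟨π.symm a, by simp [F]⟩
  refine ((red_iff.1 (Red.refl (x ∘ π))).comp ((CI.computable hF).find H)).of_eq fun a => ?_
  have := Nat.find_spec (H a)
  generalize Nat.find (H a) = n at this ⊢
  simp only [F, Nat.unpair_pair, ite_eq_left_iff, one_ne_zero, imp_false, not_not] at this
  exact congrArg (fun k => (x k).toNat) this

def dec (k : ℕ) : List Bool := (Encodable.decode k : Option (List Bool)).getD []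

theorem primrec_dec : Primrec dec := Primrec.option_getD.comp Primrec.decode (Primrec.const [])

theorem dec_encode (l : List Bool) : dec (Encodable.encode l) = l := by simp [dec]

theorem Pointed.coding {t : List Bool → Bool} (ht : Pointed t) :
    ∃ g : C → C, Continuous g ∧ (∀ c n, t (pre (g c) n) = true) ∧ ∀ c, Red c (g c) := by
  obtain ⟨h0, h1, h2, h3⟩ := ht
  let F : ℕ → ℕ := fun p => (t (dec p.unpair.1)).toNat *
    (2 - ((t (dec p.unpair.1 ++ dec p.unpair.2 ++ [false])).toNat +
      (t (dec p.unpair.1 ++ dec p.unpair.2 ++ [true])).toNat))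
  have H : ∀ a, ∃ n, F (Nat.pair a n) = 0 := fun a => by
    rcases e : t (dec a) with _ | _
    · exact ⟨0, by simp [F, e]⟩
    · obtain ⟨m, a1, a2⟩ := h2 _ e
      exact ⟨Encodable.encode m, by simp only [F, Nat.unpair_pair, dec_encode, a1, a2]; simp⟩
  let sp : List Bool → List Bool := fun l => dec (Nat.find (H (Encodable.encode l)))
  have hsp : ∀ l, t l = true → ∀ a, t (l ++ sp l ++ [a]) = true := by
    intro l hl a
    have := Nat.find_spec (H (Encodable.encode l))
    change t (l ++ dec (Nat.find (H (Encodable.encode l))) ++ [a]) = true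
    generalize Nat.find (H (Encodable.encode l)) = n at this ⊢
    simp only [F, Nat.unpair_pair, dec_encode, hl] at this
    revert this
    cases a <;> cases t (l ++ dec n ++ [false]) <;> cases t (l ++ dec n ++ [true]) <;> simp
  let node : C → ℕ → List Bool := fun c n => Nat.rec [] (fun n l => l ++ sp l ++ [c n]) n
  have hnode : ∀ c n, node c (n + 1) = node c n ++ sp (node c n) ++ [c n] := fun _ _ => rfl
  have ht : ∀ c n, t (node c n) = true := fun c n => by
    induction n with
    | zero => exact h0
    | succ n ih => exact hsp _ ih _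
  have hlen : ∀ c n, n ≤ (node c n).length := fun c n => by
    induction n with
    | zero => exact Nat.zero_le _
    | succ n ih => rw [hnode]; simp; omega
  have hpre : ∀ c n m, n ≤ m → node c n <+: node c m := fun c n m h => by
    induction m, h using Nat.le_induction with
    | base => exact List.prefix_rfl
    | succ m _ ih => rw [hnode, List.append_assoc]; exact ih.trans (List.prefix_append _ _)
  let g : C → C := fun c k => (node c (k + 1)).getD k false
  have hg : ∀ c n, pre (g c) (node c n).length = node c n := fun c n => by
    refine List.ext_getElem (pre_length _ _) fun k a b => ?_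
    have hk := hlen c (k + 1)
    simp only [pre, List.getElem_ofFn, g]
    rw [List.getD_eq_getElem _ _ (by omega), (hpre c (k + 1) _ (le_max_left _ n)).getElem,
      (hpre c n _ (le_max_right (k + 1) n)).getElem]
  have hdown : ∀ l' l, t (l ++ l') = true → t l = true := fun l' => by
    induction l' using List.reverseRecOn with
    | nil => simp
    | append_singleton l' a ih => exact fun l h => ih l (h1 _ a (by rwa [List.append_assoc]))
  have hbr : ∀ c n, t (pre (g c) n) = true := fun c n => by
    obtain ⟨l, hl⟩ := pre_add (g c) (hlen c n)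
    exact hdown l _ (by rw [← hl, hg]; exact ht c n)
  refine ⟨g, continuous_pi fun k => ?_, hbr, fun c => red_iff.2 ?_⟩
  · have : ∀ c n m, n ≤ m → node (ext (pre c m)) n = node c n := fun c n m h => by
      induction n with
      | zero => rfl
      | succ n ih => rw [hnode, hnode, ih (by omega), ext_pre c (by omega)]
    refine (continuous_pre (k + 1) fun l => (node (ext l) (k + 1)).getD k false).congr fun c => ?_
    simp only [this c _ _ le_rfl, g]
  · have hT := red_iff.1 (h3 _ (hbr c))
    have hq : ∀ {ψ : ℕ → List Bool}, Primrec ψ → CI (g c) fun p => (t (ψ p)).toNat := fun hψ =>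
      (hT.comp (CI.primrec (Primrec.encode.comp hψ))).of_eq fun p => by simp
    have d1 := primrec_dec.comp (Primrec.fst.comp Primrec.unpair)
    have d2 := primrec_dec.comp (Primrec.snd.comp Primrec.unpair)
    have d3 : ∀ a : Bool, Primrec fun p : ℕ => dec p.unpair.1 ++ dec p.unpair.2 ++ [a] := fun a =>
      Primrec.list_append.comp (Primrec.list_append.comp d1 d2) (Primrec.const _)
    have hl := Primrec.fst.comp Primrec.unpair
    have hr := Primrec.snd.comp Primrec.unpair
    have hF : CI (g c) F := by
      have : Primrec fun p : ℕ => p.unpair.1 * (2 - (p.unpair.2.unpair.1 + p.unpair.2.unpair.2)) :=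
        Primrec.nat_mul.comp hl (Primrec.nat_sub.comp (Primrec.const 2)
          (Primrec.nat_add.comp (hl.comp hr) (hr.comp hr)))
      exact ((CI.primrec this).comp ((hq d1).pair ((hq (d3 false)).pair (hq (d3 true))))).of_eq
        fun p => by simp [F]
    have h4 : CI (g c) fun i => (sp (pre (g c) i)).length :=
      (CI.primrec (Primrec.list_length.comp primrec_dec)).comp ((hF.find H).comp (CI.pre _))
    have h5 : CI (g c) fun i => i + (sp (pre (g c) i)).length + 1 :=
      ((CI.primrec (Primrec.succ.comp (Primrec.nat_add.comp hl hr))).comp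
        ((CI.primrec Primrec.id).pair h4)).of_eq fun i => by simp
    have h6 : CI (g c) fun n => (node c n).length := by
      refine (CI.prec 0 (h5.comp (CI.primrec hr))).of_eq fun n => ?_
      induction n with
      | zero => rfl
      | succ n ih =>
        refine (congrArg (fun i => (Nat.pair n i).unpair.2 +
          (sp (pre (g c) (Nat.pair n i).unpair.2)).length + 1) ih).trans ?_
        simp only [Nat.unpair_pair, hg, hnode, List.length_append, List.length_singleton]
    refine ((red_iff.1 (Red.refl (g c))).comp ((CI.primrec Primrec.pred).comp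
      (h6.comp (CI.primrec Primrec.succ)))).of_eq fun n => ?_
    have := hg c (n + 1)
    rw [hnode, List.length_append, List.length_singleton, pre_succ] at this
    have e := (List.append_inj' this rfl).2
    simp only [List.cons.injEq, and_true] at e
    simp only [Nat.succ_eq_add_one, hnode, List.length_append, List.length_singleton] at e ⊢
    rw [← e]
    rfl

theorem converse {E : ℕ → C → C → Prop} (h : Concl E) :
    ∃ (f : C → C) (b : C) (N : ℕ), Continuous f ∧ (∀ x, Red b x → TEq (f x) x) ∧
      ∀ π : ℕ ≃ ℕ, Computable π → ∀ x, Red b x → E N (f x) (f (x ∘ π)) := by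
  obtain ⟨t, i, ht, hE⟩ := h
  obtain ⟨g, g1, g2, g3⟩ := ht.coding
  obtain ⟨b, hb⟩ := exists_code' g1
  have key : ∀ x, Red b x → TEq (g x) x := fun x hx => TEq.mk' (hb x hx) (g3 x)
  refine ⟨g, b, i, g1, key, fun π hπ x hx => (hE _ _ (g2 _) (g2 _)).2 ?_⟩
  have := teq_perm x hπ
  exact (key x hx).trans (this.symm.trans (key _ (hx.trans this.ge)).symm)

theorem primrec_permS_symm : Primrec permS.symm := by
  have : Primrec swp := Primrec₂.natPair.comp (Primrec.snd.comp Primrec.unpair)
    (Primrec.fst.comp Primrec.unpair)
  exact Primrec₂.natPair.comp (Primrec.fst.comp Primrec.unpair) (primrec_hh.comp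
    (this.comp (Primrec.nat_div.comp (Primrec.fst.comp Primrec.unpair) (Primrec.const 2)))
    (Primrec.snd.comp Primrec.unpair))

theorem primrec_permT_symm : Primrec permT.symm := by
  have : Primrec sh' := Primrec.ite
    (Primrec.eq.comp (Primrec.nat_mod.comp Primrec.id (Primrec.const 2)) (Primrec.const 1))
    (Primrec.nat_add.comp Primrec.id (Primrec.const 2))
    (Primrec.ite (Primrec.eq.comp Primrec.id (Primrec.const 0)) (Primrec.const 1)
      (Primrec.nat_sub.comp Primrec.id (Primrec.const 2)))
  exact Primrec₂.natPair.comp (this.comp (Primrec.fst.comp Primrec.unpair))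
    (Primrec.snd.comp Primrec.unpair)

end Pool.Agent.Lib.MP_18f39a_lc
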