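import Pool.Agent.Lib.MP_18f39a_lc.Table
import Pool.Agent.Lib.Common.BorelDet.Main

set_option autoImplicit false

open Set Topology Filter

namespace Pool.Agent.Lib.MP_18f39a_lc

def App (t : C) (e : ℕ) (x : C) : C := fun n => t (Nat.pair e (Encodable.encode (pre x (n + 1))))

def Play (σ c : C) : C := fun n => σ (Encodable.encode (pre c n))

theorem continuous_eval_pre {X : Type} [TopologicalSpace X] {f g : X → C} (hf : Continuous f)
    (hg : Continuous g) (n : ℕ) (φ : List Bool → ℕ) :
    Continuous fun x => f x (φ (pre (g x) n)) := by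
  have h : Continuous fun p : C × ℕ => p.1 p.2 :=
    continuous_prod_of_discrete_right.2 fun n => continuous_apply n
  exact h.comp (hf.prodMk ((continuous_pre n φ).comp hg))

theorem Continuous.app' {X : Type} [TopologicalSpace X] {f g : X → C} (hf : Continuous f)
    (hg : Continuous g) (e : ℕ) : Continuous fun x => App (f x) e (g x) :=
  continuous_pi fun n => continuous_eval_pre hf hg (n + 1) fun l => Nat.pair e (Encodable.encode l)

theorem Continuous.play' {X : Type} [TopologicalSpace X] {f g : X → C} (hf : Continuous f)
    (hg : Continuous g) : Continuous fun x => Play (f x) (g x) :=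
  continuous_pi fun n => continuous_eval_pre hf hg n fun l => Encodable.encode l

theorem Red.app {t x : C} (h : Red t x) (e : ℕ) : Red (App t e x) x :=
  red_iff.2 ((red_iff.1 h).comp ((CI.primrec (Primrec.const e)).pair
    ((CI.pre x).comp (CI.primrec Primrec.succ))))

def run (ρ : ∀ n, (Fin n → ℕ) → ℕ) (n : ℕ) : ℕ := ρ n fun i => run ρ i
decreasing_by exact i.2

theorem run_eq (ρ : ∀ n, (Fin n → ℕ) → ℕ) (n : ℕ) : run ρ n = ρ n fun i => run ρ i := by
  rw [run]

theorem run_congr {ρ ρ' : ∀ n, (Fin n → ℕ) → ℕ} {m : ℕ} (h : ∀ n ≤ m, ρ n = ρ' n) :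
    ∀ n ≤ m, run ρ n = run ρ' n := by
  intro n
  induction n using Nat.strong_induction_on with
  | _ n ih =>
    intro hn
    rw [run_eq, run_eq ρ', h n hn]
    congr 1
    funext i
    exact ih i i.2 (by have := i.2; omega)

def ext (l : List Bool) : C := fun i => l.getD i false

theorem ext_pre (x : C) {n i : ℕ} (h : i < n) : ext (pre x n) i = x i := by
  simp [ext, pre, h]

theorem dichotomy {κ : ℕ → C → C} (hκ : ∀ e, Measurable (κ e)) {A : ℕ → Set C}
    (hA : ∀ e, MeasurableSet (A e)) :
    (∃ τ, ∀ e x, κ e x = τ → x ∉ A e) ∨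
    (∃ e σ, ∀ c, Play σ c ∈ A e ∧ App (κ e (Play σ c)) e (Play σ c) = c) := by
  let xI : (ℕ → ℕ) → C := fun a n => decide (a (2 * n + 2) = 1)
  let cII : (ℕ → ℕ) → C := fun a n => decide (a (2 * n + 3) = 1)
  have hd : Continuous fun v : ℕ => decide (v = 1) := continuous_of_discreteTopology
  have hx : Continuous xI := continuous_pi fun n => hd.comp (continuous_apply _)
  have hc : Continuous cII := continuous_pi fun n => hd.comp (continuous_apply _)
  let S : Set (ℕ → ℕ) := {a | xI a ∈ A (a 0) ∧ App (κ (a 0) (xI a)) (a 0) (xI a) = cII a}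
  have hS : MeasurableSet S := by
    have : S = ⋃ e, (fun a : ℕ → ℕ => a 0) ⁻¹' {e} ∩
        (xI ⁻¹' A e ∩ {a | App (κ e (xI a)) e (xI a) = cII a}) := by
      ext a
      simp [S]
    rw [this]
    refine MeasurableSet.iUnion fun e => (measurable_pi_apply 0 (measurableSet_singleton e)).inter
      ((hx.measurable (hA e)).inter (measurableSet_eq_fun ?_ hc.measurable))
    exact (Continuous.app' continuous_fst continuous_snd e).measurable.comp
      (((hκ e).comp hx.measurable).prodMk hx.measurable)
  have hb : ∀ v : Bool, decide (v.toNat = 1) = v := fun v => by cases v <;> rfl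
  rcases Pool.Agent.Lib.Common.BorelDet.borel_determinacy hS with ⟨σ, hσ⟩ | ⟨τ, hτ⟩
  · right
    let ρ : C → ∀ n, (Fin n → ℕ) → ℕ := fun c n v =>
      if n % 2 = 0 then σ n v else if n = 1 then 0 else (c ((n - 3) / 2)).toNat
    let σ' : C := fun k => ((Encodable.decode k : Option (List Bool)).map
      fun l => xI (run (ρ (ext l))) l.length).getD false
    have h1 : ∀ c, Play σ' c = xI (run (ρ c)) := by
      intro c
      funext n
      simp only [Play, σ', Encodable.encodek, Option.map_some, Option.getD_some, pre_length, xI]
      rw [run_congr (ρ' := ρ c) (m := 2 * n + 2) (fun j hj => ?_) _ le_rfl]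
      funext v
      simp only [ρ]
      split_ifs with h h'
      · rfl
      · rfl
      · rw [ext_pre c (by omega)]
    have h2 : ∀ c, cII (run (ρ c)) = c := by
      intro c
      funext n
      have : run (ρ c) (2 * n + 3) = (c n).toNat := by
        rw [run_eq]
        simp only [ρ]
        rw [if_neg (by omega), if_neg (by omega)]
        congr 2
        omega
      simp only [cII, this, hb]
    have h3 : ∀ c, run (ρ c) 0 = σ 0 Fin.elim0 := by
      intro c
      rw [run_eq]
      simp only [ρ, Nat.zero_mod, if_true]
      congr 1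
      funext i
      exact i.elim0
    refine ⟨σ 0 Fin.elim0, σ', fun c => ?_⟩
    have := hσ (run (ρ c)) fun n hn => by rw [run_eq]; simp only [ρ, hn, if_true]
    simp only [S, mem_ofPred_eq, h2, h3] at this
    rw [h1]
    exact this
  · left
    let ρ : ℕ → C → ∀ n, (Fin n → ℕ) → ℕ := fun e x n v =>
      if n % 2 = 1 then τ n v else if n = 0 then e else (x ((n - 2) / 2)).toNat
    let τ' : C := fun k => ((Encodable.decode k.unpair.2 : Option (List Bool)).map
      fun l => cII (run (ρ k.unpair.1 (ext l))) (l.length - 1)).getD false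
    have h1 : ∀ e x, App τ' e x = cII (run (ρ e x)) := by
      intro e x
      funext n
      simp only [App, τ', Nat.unpair_pair, Encodable.encodek, Option.map_some, Option.getD_some,
        pre_length, cII, Nat.add_sub_cancel]
      rw [run_congr (ρ' := ρ e x) (m := 2 * n + 3) (fun j hj => ?_) _ le_rfl]
      funext v
      simp only [ρ]
      split_ifs with h h'
      · rfl
      · rfl
      · rw [ext_pre x (by omega)]
    have h2 : ∀ e x, xI (run (ρ e x)) = x := by
      intro e x
      funext n
      have : run (ρ e x) (2 * n + 2) = (x n).toNat := by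
        rw [run_eq]
        simp only [ρ]
        rw [if_neg (by omega), if_neg (by omega)]
        congr 2
        omega
      simp only [xI, this, hb]
    have h3 : ∀ e x, run (ρ e x) 0 = e := by
      intro e x
      rw [run_eq]
      simp [ρ]
    refine ⟨τ', fun e x he hx => hτ (run (ρ e x)) (fun n hn => ?_) ?_⟩
    · rw [run_eq]; simp only [ρ, hn, if_true]
    · simp only [S, mem_ofPred_eq, h2, h3, he, h1]
      exact ⟨hx, trivial⟩

/-- `t` is a pointed perfect tree. -/
def Pointed (t : List Bool → Bool) : Prop :=
  t [] = true ∧ (∀ l : List Bool, ∀ a : Bool, t (l ++ [a]) = true → t l = true) ∧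
    (∀ l : List Bool, t l = true →
      ∃ m : List Bool, t (l ++ m ++ [false]) = true ∧ t (l ++ m ++ [true]) = true) ∧
    ∀ x : C, (∀ n, t (pre x n) = true) →
      Red (fun k => (Encodable.decode k : Option (List Bool)).elim false t) x

theorem pre_add (x : C) {n m : ℕ} (h : n ≤ m) : ∃ l, pre x m = pre x n ++ l := by
  induction m, h using Nat.le_induction with
  | base => exact ⟨[], by simp⟩
  | succ m _ ih =>
    obtain ⟨l, hl⟩ := ih
    exact ⟨l ++ [x m], by rw [pre_succ, hl, List.append_assoc]⟩

theorem exists_pointed {g : C → C} (hg : Continuous g) (hi : Function.Injective g)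
    (hr : ∀ c, Red c (g c)) (b : C) :
    ∃ t, Pointed t ∧ ∀ u, (∀ n, t (pre u n) = true) → ∃ c, Red b c ∧ g c = u := by
  classical
  let tree : C → List Bool → Bool := fun β l => decide (∃ w, pre (g (join β w)) l.length = l)
  have hcont : Continuous fun p : C × C => g (join p.1 p.2) :=
    hg.comp (Continuous.join' continuous_fst continuous_snd)
  have hclopen : ∀ (n : ℕ) (l : List Bool), IsClopen {x : C | pre x n = l} := by
    intro n l
    have := (continuous_bool_rng true).1 (continuous_pre n fun l' => decide (l' = l))
    simpa [preimage] using this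
  have ht : Continuous fun β => (fun k => (Encodable.decode k : Option (List Bool)).elim false
      (tree β) : C) := by
    refine continuous_pi fun k => ?_
    rcases (Encodable.decode k : Option (List Bool)) with _ | l
    · exact continuous_const
    · refine (continuous_bool_rng true).2 ?_
      have : (fun β => (some l).elim false (tree β)) ⁻¹' {true} =
          Prod.fst '' ((fun p : C × C => g (join p.1 p.2)) ⁻¹' {x | pre x l.length = l}) := by
        ext β
        simp [tree]
      rw [this]
      have := (hclopen l.length l).preimage hcont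
      exact ⟨isClosedMap_fst_of_compactSpace _ this.1, isOpenMap_fst _ this.2⟩
  obtain ⟨bt, hbt⟩ := exists_code' ht
  let β := join b bt
  have hcw : Continuous fun w => g (join β w) :=
    hg.comp (Continuous.join' continuous_const continuous_id)
  have hbr : ∀ u, (∀ n, tree β (pre u n) = true) → ∃ w, g (join β w) = u := by
    intro u hu
    by_contra hc
    have h1 : IsClosed (range fun w => g (join β w)) := (isCompact_range hcw).isClosed
    obtain ⟨n, hn⟩ := exists_pre_of_mem_nhds (h1.isOpen_compl.mem_nhds hc)
    have := hu n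
    simp only [tree, pre_length, decide_eq_true_eq] at this
    obtain ⟨w, hw⟩ := this
    exact hn _ hw ⟨w, rfl⟩
  have hmem : ∀ w n, tree β (pre (g (join β w)) n) = true := fun w n => by
    simp only [tree, pre_length, decide_eq_true_eq]
    exact ⟨w, rfl⟩
  refine ⟨tree β, ⟨hmem β 0, fun l a h => ?_, fun l h => ?_, fun x hx => ?_⟩, fun u hu => ?_⟩
  · simp only [tree, decide_eq_true_eq, List.length_append, List.length_singleton] at h ⊢
    obtain ⟨w, hw⟩ := h
    rw [pre_succ] at hw
    exact ⟨w, (List.append_inj' hw rfl).1⟩
  · simp only [tree, decide_eq_true_eq] at h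
    obtain ⟨w, hw⟩ := h
    obtain ⟨n, hn⟩ := exists_pre_of_mem_nhds
      (((hclopen l.length l).preimage hcw).2.mem_nhds (x := w) hw)
    let w' := Function.update w n (!w n)
    have hw' : pre (g (join β w')) l.length = l :=
      hn w' (pre_eq_iff.2 fun i hi => Function.update_of_ne (by omega) _ _)
    have hne : ∃ j, g (join β w) j ≠ g (join β w') j := by
      by_contra hc
      push Not at hc
      have := congrFun (congrArg snd (hi (funext hc))) n
      simp [w'] at this
    let j := Nat.find hne
    have hj : g (join β w) j ≠ g (join β w') j := Nat.find_spec hne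
    have hj' : pre (g (join β w')) j = pre (g (join β w)) j :=
      pre_eq_iff.2 fun i hi => (not_not.1 (Nat.find_min hne hi)).symm
    have hlj : l.length ≤ j := by
      by_contra hc
      exact hj (pre_eq_iff.1 (hw.trans hw'.symm) j (by omega))
    obtain ⟨m, hm⟩ := pre_add (g (join β w)) hlj
    rw [hw] at hm
    have h1 := hmem w (j + 1)
    have h2 := hmem w' (j + 1)
    rw [pre_succ] at h1 h2
    rw [hj'] at h2
    rw [hm] at h1 h2
    refine ⟨m, ?_⟩
    revert hj h1 h2
    cases g (join β w) j <;> cases g (join β w') j <;> simp +contextual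
  · obtain ⟨w, rfl⟩ := hbr x hx
    exact (hbt β (red_right _ _)).trans ((red_left β w).trans (hr _))
  · obtain ⟨w, rfl⟩ := hbr u hu
    exact ⟨_, (red_left b bt).trans (red_left β w), rfl⟩

end Pool.Agent.Lib.MP_18f39a_lc
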