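import Pool.Agent.Lib.MP_18f39a_lc.Game

set_option autoImplicit false

open Set Topology Filter

namespace Pool.Agent.Lib.MP_18f39a_lc

/-- An increasing Borel exhaustion of Turing equivalence. -/
structure Exh (E : ℕ → C → C → Prop) : Prop where
  eqv : ∀ n, Equivalence (E n)
  meas : ∀ n, MeasurableSet {p : C × C | E n p.1 p.2}
  mono : ∀ n x y, E n x y → E (n + 1) x y
  union : ∀ x y, TEq x y ↔ ∃ n, E n x y

def Concl (E : ℕ → C → C → Prop) : Prop :=
  ∃ t i, Pointed t ∧ ∀ x y : C, (∀ n, t (pre x n) = true) → (∀ n, t (pre y n) = true) →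
    (E i x y ↔ TEq x y)

theorem Exh.le {E : ℕ → C → C → Prop} (h : Exh E) {n m : ℕ} (hnm : n ≤ m) {x y : C}
    (e : E n x y) : E m x y := by
  induction m, hnm using Nat.le_induction with
  | base => exact e
  | succ m _ ih => exact h.mono m x y ih

theorem Exh.meas' {E : ℕ → C → C → Prop} (h : Exh E) (n : ℕ) {f g : C → C} (hf : Measurable f)
    (hg : Measurable g) : MeasurableSet {x | E n (f x) (g x)} :=
  (hf.prodMk hg) (h.meas n)

theorem final {E : ℕ → C → C → Prop} (h : Exh E) {G : C → C} (hG : Measurable G) {τ b : C}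
    (hb : ∀ x, Red b x → TEq (G x) x) {m : ℕ}
    (H : ∀ x x', fst x = τ → fst (snd x) = b → fst x' = τ → fst (snd x') = b → TEq x x' →
      E m (G x) (G x')) : Concl E := by
  obtain ⟨ev, Tot, e1, e2, -, e4, e5⟩ := exists_ev
  have hfst := continuous_fst'.measurable
  have hsnd := continuous_snd'.measurable
  have hP : ∀ x, fst (snd x) = b → TEq (G x) x := fun x hx =>
    hb x (hx ▸ (red_fst _).trans (red_snd _))
  rcases dichotomy (κ := fun e => ev e.unpair.2) (fun e => e1 _)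
    (A := fun e => Tot e.unpair.2 ∩ (Tot e.unpair.1 ∩ ({u | fst (ev e.unpair.1 u) = τ} ∩
      ({u | fst (snd (ev e.unpair.1 u)) = b} ∩ {u | E m u (G (ev e.unpair.1 u))}))))
    (fun e => (e2 _).inter ((e2 _).inter ((measurableSet_eq_fun (hfst.comp (e1 _))
      measurable_const).inter ((measurableSet_eq_fun (hfst.comp (hsnd.comp (e1 _)))
      measurable_const).inter (h.meas' m measurable_id (hG.comp (e1 _))))))) with
    ⟨τ', hτ⟩ | ⟨e, σ, hσ⟩
  · exfalso
    have h1 := hP (join τ (join b τ')) (by simp)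
    obtain ⟨i, hi, hi'⟩ := e5 _ _ h1.ge
    obtain ⟨j, hj, hj'⟩ := e5 _ _ (((red_right b τ').trans (red_right τ _)).trans h1.ge)
    refine hτ (Nat.pair i j) (G (join τ (join b τ'))) (by simpa using hj') ?_
    simp only [Nat.unpair_pair, mem_inter_iff, mem_ofPred_eq, hi', fst_join, snd_join]
    exact ⟨hj, hi, trivial, trivial, (h.eqv m).refl _⟩
  · obtain ⟨t, ht, hu⟩ := exists_pointed (g := Play σ)
      (Continuous.play' continuous_const continuous_id)
      (fun c c' e' => by rw [← (hσ c).2, e', (hσ c').2])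
      (fun c => by
        have := (e4 _ _ (hσ c).1.1).app e
        rwa [(hσ c).2] at this) b
    refine ⟨t, m, ht, fun x y hx hy => ⟨fun e => (h.union _ _).2 ⟨m, e⟩, fun hxy => ?_⟩⟩
    obtain ⟨c, -, rfl⟩ := hu x hx
    obtain ⟨c', -, rfl⟩ := hu y hy
    obtain ⟨-, -, a1, a2, a3⟩ := (hσ c).1
    obtain ⟨-, -, b1, b2, b3⟩ := (hσ c').1
    have a4 := ((h.union _ _).2 ⟨m, a3⟩).trans (hP _ a2)
    have b4 := ((h.union _ _).2 ⟨m, b3⟩).trans (hP _ b2)
    exact (h.eqv m).trans a3 ((h.eqv m).trans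
      (H _ _ a1 a2 b1 b2 (a4.symm.trans (hxy.trans b4))) ((h.eqv m).symm b3))

def col (m : ℕ) (c : C) : C := fun k => c (Nat.pair m k)

/-- A countable clone of continuous maps. -/
structure Clone (Φ : ℕ → C → C) : Prop where
  cont : ∀ a, Continuous (Φ a)
  id : id ∈ range Φ
  fst : fst ∈ range Φ
  snd : snd ∈ range Φ
  play : (fun p => Play (MP_18f39a_lc.fst p) (MP_18f39a_lc.snd p)) ∈ range Φ
  app : ∀ e, (fun x => App (MP_18f39a_lc.fst x) e x) ∈ range Φ
  hh : ∀ i, (fun u : C => u ∘ hh i) ∈ range Φ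
  nil : (fun u : C => u ∘ colI []) ∈ range Φ
  col : ∀ m, col m ∈ range Φ
  comp : ∀ f ∈ range Φ, ∀ g ∈ range Φ, f ∘ g ∈ range Φ
  join : ∀ f ∈ range Φ, ∀ g ∈ range Φ, (fun x => join (f x) (g x)) ∈ range Φ

theorem exists_clone : ∃ Φ, Clone Φ := by
  let S : Set (C → C) := {id, fst, snd, fun p => Play (fst p) (snd p), fun u : C => u ∘ colI []} ∪
    (range (fun e x => App (fst x) e x) ∪ (range (fun i (u : C) => u ∘ hh i) ∪ range col))
  obtain ⟨A, hA, hSA, hop, hP⟩ := exists_countable_closed S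
    ((Set.toFinite _).countable.union ((countable_range _).union ((countable_range _).union
      (countable_range _))))
    (fun (k : Bool) f g => if k = true then f ∘ g else fun x => join (f x) (g x)) Continuous
    (by
      rintro x ((rfl | rfl | rfl | rfl | rfl) | ⟨e, rfl⟩ | ⟨i, rfl⟩ | ⟨m, rfl⟩)
      · exact continuous_id
      · exact continuous_fst'
      · exact continuous_snd'
      · exact Continuous.play' continuous_fst' continuous_snd'
      · exact continuous_comp _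
      · exact Continuous.app' continuous_fst' continuous_id e
      · exact continuous_comp _
      · exact continuous_comp _)
    (fun k f g hf hg => by
      split_ifs
      · exact hf.comp hg
      · exact Continuous.join' hf hg)
  have hne : A.Nonempty := ⟨_, hSA (Or.inl (Or.inl rfl))⟩
  obtain ⟨Φ, rfl⟩ := hA.exists_eq_range hne
  exact ⟨Φ, fun a => hP _ ⟨a, rfl⟩, hSA (by simp [S]), hSA (by simp [S]), hSA (by simp [S]),
    hSA (by simp [S]), fun e => hSA (Or.inr (Or.inl ⟨e, rfl⟩)),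
    fun i => hSA (Or.inr (Or.inr (Or.inl ⟨i, rfl⟩))), hSA (by simp [S]),
    fun m => hSA (Or.inr (Or.inr (Or.inr ⟨m, rfl⟩))), fun f hf g hg => hop true f hf g hg,
    fun f hf g hg => hop false f hf g hg⟩

/-- `y` is obtained from `x` by a map of the clone. -/
def Ab (Φ : ℕ → C → C) (x y : C) : Prop := ∃ g ∈ range Φ, g x = y

namespace Clone

variable {Φ : ℕ → C → C} (h : Clone Φ)
include h

theorem refl (x : C) : Ab Φ x x := ⟨_, h.id, rfl⟩

theorem trans {x y z : C} (a : Ab Φ x y) (b : Ab Φ y z) : Ab Φ x z := by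
  obtain ⟨f, hf, rfl⟩ := a
  obtain ⟨g, hg, rfl⟩ := b
  exact ⟨_, h.comp g hg f hf, rfl⟩

theorem ab_join {x y z : C} (a : Ab Φ x y) (b : Ab Φ x z) :
    Ab Φ x (MP_18f39a_lc.join y z) := by
  obtain ⟨f, hf, rfl⟩ := a
  obtain ⟨g, hg, rfl⟩ := b
  exact ⟨_, h.join f hf g hg, rfl⟩

theorem ab_fst (x : C) : Ab Φ x (MP_18f39a_lc.fst x) := ⟨_, h.fst, rfl⟩

theorem ab_snd (x : C) : Ab Φ x (MP_18f39a_lc.snd x) := ⟨_, h.snd, rfl⟩

theorem left (x y : C) : Ab Φ (MP_18f39a_lc.join x y) x := by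
  simpa using h.ab_fst (MP_18f39a_lc.join x y)

theorem right (x y : C) : Ab Φ (MP_18f39a_lc.join x y) y := by
  simpa using h.ab_snd (MP_18f39a_lc.join x y)

theorem ab_play {x σ c : C} (a : Ab Φ x σ) (b : Ab Φ x c) : Ab Φ x (Play σ c) :=
  h.trans (h.ab_join a b) ⟨_, h.play, by simp⟩

theorem ab_tab {Ψ : ℕ → C → C} {x y : C} (a : Ab Ψ x y) (b : Ab Ψ y x) :
    Ab Φ (tab Ψ x) (tab Ψ y) := by
  obtain ⟨_, ⟨a, rfl⟩, ha⟩ := a
  obtain ⟨_, ⟨a', rfl⟩, ha'⟩ := b
  exact ⟨_, h.hh _, (tab_rel ha ha').symm⟩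

theorem ab_nil (Ψ : ℕ → C → C) (x : C) : Ab Φ (tab Ψ x) x := ⟨_, h.nil, tab_nil Ψ x⟩

end Clone

theorem main_perm {E : ℕ → C → C → Prop} (h : Exh E) {f : C → C} (hf : Measurable f) {b : C}
    (hb : ∀ x, Red b x → TEq (f x) x) {N : ℕ}
    (hS : ∀ u, Red b u → E N (f u) (f (u ∘ permS)))
    (hT : ∀ u, Red b u → E N (f u) (f (u ∘ permT))) : Concl E := by
  obtain ⟨Φ, hΦ⟩ := exists_clone
  obtain ⟨ev, Tot, e1, e2, e3, -, e5⟩ := exists_ev
  have hF : Continuous fun x => slot 0 (tab Φ x) :=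
    (continuous_slot 0).comp (continuous_tab hΦ.cont)
  obtain ⟨bF, hbF⟩ := exists_code' hF
  let b0 := join b bF
  let G : C → C := fun x => f (slot 0 (tab Φ x))
  have hG : Measurable G := hf.comp hF.measurable
  have hGT : ∀ x, Red b0 x → TEq (G x) x := fun x hx =>
    (hb _ (((red_left b bF).trans hx).trans ((red_tab Φ x).trans (red_slot 0 _)))).trans
      (TEq.mk' (hbF x ((red_right b bF).trans hx)) ((red_tab Φ x).trans (red_slot 0 _)))
  have hred : ∀ x, Ab Φ x b0 → Red b (tab Φ x) := by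
    rintro x ⟨_, ⟨a, rfl⟩, ha⟩
    have := red_tab_one Φ x a
    rw [ha] at this
    exact (red_left b bF).trans this
  have inv : ∀ i x y, Ab Φ x b0 → Ab Φ x y → Ab Φ y x → E (N + i) (G x) (G y) := by
    intro i x y hx hxy hyx
    have hy := hred y (hΦ.trans hyx hx)
    obtain ⟨_, ⟨a, rfl⟩, ha⟩ := hxy
    obtain ⟨_, ⟨a', rfl⟩, ha'⟩ := hyx
    refine h.le (Nat.le_add_right N i) ?_
    simp only [G]
    rw [tab_rel ha ha'] at hy ⊢
    exact slot_rel (Q := fun u v => E N (f u) (f v))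
      ⟨fun _ => (h.eqv N).refl _, (h.eqv N).symm, (h.eqv N).trans⟩ hS hT _ (hred x hx) hy
  have hfst := continuous_fst'.measurable
  have hsnd := continuous_snd'.measurable
  have hB : MeasurableSet {x | fst (snd x) = b0} :=
    measurableSet_eq_fun (hfst.comp hsnd) measurable_const
  have hAb : ∀ x, fst (snd x) = b0 → Ab Φ x b0 := fun x hx =>
    hx ▸ hΦ.trans (hΦ.ab_snd x) (hΦ.ab_fst _)
  by_contra hcon
  -- first family of games
  have step1 : ∀ i, ∃ e σ, ∀ c, Play σ c ∈ {x | fst (snd x) = b0} ∩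
      (Tot e ∩ {x | E (N + i) (G x) (G (join x (ev e x)))}ᶜ) ∧
      App (fst (Play σ c)) e (Play σ c) = c := by
    intro i
    refine (dichotomy (κ := fun _ => fst) (fun _ => hfst)
      (A := fun e => {x | fst (snd x) = b0} ∩
        (Tot e ∩ {x | E (N + i) (G x) (G (join x (ev e x)))}ᶜ))
      (fun e => hB.inter ((e2 e).inter
        (h.meas' _ hG (hG.comp (Measurable.join' measurable_id (e1 e)))).compl))).resolve_left ?_
    rintro ⟨τ, hτ⟩
    have key : ∀ x x', fst x = τ → fst (snd x) = b0 → Red x' x →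
        E (N + i) (G x) (G (join x x')) := by
      intro x x' h1 h2 hr
      obtain ⟨e, he, rfl⟩ := e5 _ _ hr
      by_contra hc
      exact hτ e x h1 ⟨h2, he, hc⟩
    refine hcon (final h hG hGT (τ := τ) (m := N + i) fun x x' h1 h2 h3 h4 hxx => ?_)
    refine (h.eqv _).trans (key x x' h1 h2 hxx.ge) ((h.eqv _).trans (inv i _ _ ?_ ?_ ?_)
      ((h.eqv _).symm (key x' x h3 h4 hxx.le)))
    · exact hΦ.trans (hΦ.left _ _) (hAb x h2)
    · exact hΦ.ab_join (hΦ.right _ _) (hΦ.left _ _)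
    · exact hΦ.ab_join (hΦ.right _ _) (hΦ.left _ _)
  choose e σ hσ using step1
  let Ψ0 : ℕ → C → C := fun i c => join (Play (σ i) c) (ev (e i) (Play (σ i) c))
  have hΨ0 : ∀ i, Continuous (Ψ0 i) := by
    intro i
    have hp : Continuous (Play (σ i)) := Continuous.play' continuous_const continuous_id
    refine Continuous.join' hp (continuous_iff_continuousAt.2 fun c => ?_)
    exact ContinuousAt.comp (e3 _ _ (hσ i c).1.2.1) hp.continuousAt
  let Ψ : ℕ → C → C := fun a => if a % 2 = 0 then Φ (a / 2) else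
    fun x => Ψ0 (a / 2) (App (fst x) (e (a / 2)) x)
  have hΨ : ∀ a, Continuous (Ψ a) := by
    intro a
    simp only [Ψ]
    split_ifs
    · exact hΦ.cont _
    · exact (hΨ0 _).comp (Continuous.app' continuous_fst' continuous_id _)
  have sub : ∀ x y, Ab Φ x y → Ab Ψ x y := by
    rintro x y ⟨_, ⟨a, rfl⟩, ha⟩
    exact ⟨_, ⟨2 * a, rfl⟩, by simpa [Ψ] using ha⟩
  have hΘ := continuous_tab hΨ
  obtain ⟨bΘ, hbΘ⟩ := exists_code' hΘ
  have inv2 : ∀ i x y, Ab Φ x b0 → Ab Ψ x y → Ab Ψ y x →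
      E (N + i) (G (tab Ψ x)) (G (tab Ψ y)) := fun i x y hx hxy hyx =>
    inv i _ _ (hΦ.trans (hΦ.ab_nil Ψ x) hx) (hΦ.ab_tab hxy hyx) (hΦ.ab_tab hyx hxy)
  have inv3 : ∀ i x y, Ab Φ x b0 → Ab Φ x y → Ab Φ y x →
      E (N + i) (G y) (G (tab Ψ y)) → E (N + i) (G x) (G (tab Ψ x)) := fun i x y hx hxy hyx hy =>
    (h.eqv _).trans (inv i x y hx hxy hyx) ((h.eqv _).trans hy
      ((h.eqv _).symm (inv2 i x y hx (sub _ _ hxy) (sub _ _ hyx))))
  -- second family of games
  have step2 : ∀ m, ∃ e σ, ∀ c, Play σ c ∈ {x | fst (snd x) = b0} ∩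
      {x | E (N + m) (G x) (G (tab Ψ x))}ᶜ ∧ App (fst (Play σ c)) e (Play σ c) = c := by
    intro m
    refine (dichotomy (κ := fun _ => fst) (fun _ => hfst)
      (A := fun _ => {x | fst (snd x) = b0} ∩ {x | E (N + m) (G x) (G (tab Ψ x))}ᶜ)
      (fun e => hB.inter (h.meas' _ hG (hG.comp hΘ.measurable)).compl)).resolve_left ?_
    rintro ⟨τ, hτ⟩
    have key : ∀ z, Ab Φ z (join τ b0) → E (N + m) (G z) (G (tab Ψ z)) := by
      intro z hz
      have hz0 := hΦ.trans hz (hΦ.right _ _)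
      refine inv3 m z (join τ (join b0 z)) hz0
        (hΦ.ab_join (hΦ.trans hz (hΦ.left _ _)) (hΦ.ab_join hz0 (hΦ.refl _)))
        (hΦ.trans (hΦ.right _ _) (hΦ.right _ _)) ?_
      by_contra hc
      exact hτ 0 _ (by simp) ⟨by simp, hc⟩
    obtain ⟨⟨h1, -, h2⟩, h3⟩ := hσ m (join τ b0)
    have hx : Ab Φ (Play (σ m) (join τ b0)) (join τ b0) := ⟨_, hΦ.app (e m), h3⟩
    refine h2 ((h.eqv _).trans (key _ hx) ((h.eqv _).trans (inv2 m _ _ (hAb _ h1) ?_ ?_)
      ((h.eqv _).symm (key _ (hΦ.trans (hΦ.left _ _) hx)))))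
    · refine ⟨_, ⟨2 * m + 1, rfl⟩, ?_⟩
      have e1 : (2 * m + 1) % 2 = 1 := by omega
      have e2 : (2 * m + 1) / 2 = m := by omega
      simp only [Ψ, e1, e2, one_ne_zero, if_false, h3, Ψ0]
    · exact sub _ _ (hΦ.left _ _)
  choose e' σ' hσ' using step2
  let s : C := fun k => σ' k.unpair.1 k.unpair.2
  let c := join b0 (join bΘ s)
  have hc1 : TEq (tab Ψ c) c :=
    TEq.mk' (hbΘ c ((red_left bΘ s).trans (red_right b0 _))) (red_tab Ψ c)
  have hc2 : TEq (G c) (G (tab Ψ c)) := (hGT c (red_left _ _)).trans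
    (hc1.symm.trans (hGT _ ((red_left _ _).trans hc1.ge)).symm)
  obtain ⟨n, hn⟩ := (h.union _ _).1 hc2
  obtain ⟨⟨h1, h2⟩, h3⟩ := hσ' n c
  refine h2 (inv3 n _ c (hAb _ h1) ⟨_, hΦ.app (e' n), h3⟩ (hΦ.ab_play ?_ (hΦ.refl _))
    (h.le (Nat.le_add_left n N) hn))
  refine hΦ.trans (hΦ.trans (hΦ.right _ _) (hΦ.right _ _)) ⟨_, hΦ.col n, ?_⟩
  funext k
  simp [col, s]

end Pool.Agent.Lib.MP_18f39a_lc
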