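import Pool.Agent.Lib.MP_18f39a_lc.Main

set_option autoImplicit false

open Set Topology Filter

namespace Pool.Agent.Lib.MP_18f39a_lc

theorem red_match {φ d d' : C} (h : ∀ j, ∃ i, φ (Nat.pair j i) = true)
    (h' : ∀ j i, φ (Nat.pair j i) = true → d' j = d i) : Red (join φ d') (join φ d) := by
  refine (red_left φ d).join (red_iff.2 ?_)
  have h1 : CI (join φ d) (fun p => 1 - (φ p).toNat) :=
    (CI.primrec (Primrec.nat_sub.comp (Primrec.const 1) Primrec.id)).comp (red_iff.1 (red_left φ d))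
  have H : ∀ a, ∃ n, (fun p => 1 - (φ p).toNat) (Nat.pair a n) = 0 := fun a => by
    obtain ⟨i, hi⟩ := h a
    exact ⟨i, by simp [hi]⟩
  refine ((red_iff.1 (red_right φ d)).comp (h1.find H)).of_eq fun j => ?_
  have := Nat.find_spec (H j)
  rw [h' j (Nat.find (H j)) (by revert this; simp only; cases φ _ <;> simp)]

structure Cd where
  L : ℕ
  φ : C
  d : C
  d' : C
  inv : ∀ j i, φ (Nat.pair j i) = true → i < L ∧ j < L ∧ d' j = d i ∧ d j = d' i

def Agr (L : ℕ) (x y : C) : Prop := ∀ i < L, x i = y i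

def Cd.Ext (s : Cd) (φ d d' : C) : Prop := Agr s.L φ s.φ ∧ Agr s.L d s.d ∧ Agr s.L d' s.d'

theorem Cd.step (s : Cd) (j : ℕ) {F : Set (C × C)} (hF : IsClosed F)
    (h : ∃ e e', Agr s.L e s.d ∧ Agr s.L e' s.d' ∧ (join s.φ e, join s.φ e') ∉ F) :
    ∃ s' : Cd, s.L < s'.L ∧ s.Ext s'.φ s'.d s'.d' ∧
      (∃ i, Nat.pair j i < s'.L ∧ s'.φ (Nat.pair j i) = true) ∧
      ∀ ψ e e', s'.Ext ψ e e' → (join ψ e, join ψ e') ∉ F := by
  obtain ⟨e, e', h1, h2, h3⟩ := h
  obtain ⟨U, hU, V, hV, hUV⟩ := mem_nhds_prod_iff.1 (hF.isOpen_compl.mem_nhds h3)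
  obtain ⟨n, hn⟩ := exists_pre_of_mem_nhds hU
  obtain ⟨n', hn'⟩ := exists_pre_of_mem_nhds hV
  let i := s.L + n + n' + j + 1
  have hi : i ≤ Nat.pair j i := Nat.right_le_pair _ _
  refine ⟨⟨Nat.pair j i + 1, Function.update s.φ (Nat.pair j i) true, Function.update e i (e' j),
    Function.update e' i (e j), fun a c hac => ?_⟩, by simp only; omega,
    ⟨fun p hp => Function.update_of_ne (by omega) _ _, fun p hp => ?_, fun p hp => ?_⟩,
    ⟨i, by simp, by simp⟩, fun ψ f f' hg => ?_⟩
  · by_cases e0 : Nat.pair a c = Nat.pair j i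
    · obtain ⟨rfl, rfl⟩ := Nat.pair_eq_pair.1 e0
      refine ⟨by omega, by omega, ?_, ?_⟩
      · rw [Function.update_of_ne (by omega), Function.update_self]
      · rw [Function.update_of_ne (by omega), Function.update_self]
    · rw [Function.update_of_ne e0] at hac
      obtain ⟨a1, a2, a3, a4⟩ := s.inv a c hac
      refine ⟨by omega, by omega, ?_, ?_⟩
      · rw [Function.update_of_ne (by omega), Function.update_of_ne (by omega), h2 a a2, h1 c a1,
          a3]
      · rw [Function.update_of_ne (by omega), Function.update_of_ne (by omega), h1 a a2, h2 c a1,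
          a4]
  · exact (Function.update_of_ne (by omega) _ _).trans (h1 p hp)
  · exact (Function.update_of_ne (by omega) _ _).trans (h2 p hp)
  · obtain ⟨g1, g2, g3⟩ := hg
    refine hUV (mk_mem_prod (hn _ (pre_eq_iff.2 fun p hp => ?_))
      (hn' _ (pre_eq_iff.2 fun p hp => ?_)))
    · simp only [join]
      split_ifs
      · exact (g1 _ (by simp only; omega)).trans (Function.update_of_ne (by omega) _ _)
      · exact (g2 _ (by simp only; omega)).trans (Function.update_of_ne (by omega) _ _)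
    · simp only [join]
      split_ifs
      · exact (g1 _ (by simp only; omega)).trans (Function.update_of_ne (by omega) _ _)
      · exact (g3 _ (by simp only; omega)).trans (Function.update_of_ne (by omega) _ _)

theorem exists_rect (F : ℕ → Set (C × C)) (hF : ∀ k, IsClosed (F k))
    (h : ∀ x y, TEq x y → ∃ k, (x, y) ∈ F k) :
    ∃ (k : ℕ) (s : Cd), ∀ e e', Agr s.L e s.d → Agr s.L e' s.d' →
      (join s.φ e, join s.φ e') ∈ F k := by
  by_contra hc
  push Not at hc
  choose nx h1 h2 h3 h4 using fun (k : ℕ) (s : Cd) => s.step k (hF k) (hc k s)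
  let s : ℕ → Cd := fun n => Nat.rec ⟨0, fun _ => false, fun _ => false, fun _ => false, by simp⟩
    (fun n s => nx n s) n
  have hs : ∀ n, s (n + 1) = nx n (s n) := fun _ => rfl
  have hL : StrictMono fun n => (s n).L := strictMono_nat_of_lt_succ fun n => h1 n (s n)
  have hE : ∀ n m, n ≤ m → (s n).Ext (s m).φ (s m).d (s m).d' := by
    intro n m hnm
    induction m, hnm using Nat.le_induction with
    | base => exact ⟨fun _ _ => rfl, fun _ _ => rfl, fun _ _ => rfl⟩
    | succ m hnm ih =>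
      have := h2 m (s m)
      have hl : (s n).L ≤ (s m).L := hL.monotone hnm
      exact ⟨fun p hp => (this.1 p (by omega)).trans (ih.1 p hp),
        fun p hp => (this.2.1 p (by omega)).trans (ih.2.1 p hp),
        fun p hp => (this.2.2 p (by omega)).trans (ih.2.2 p hp)⟩
  let φ : C := fun p => (s (p + 1)).φ p
  let d : C := fun p => (s (p + 1)).d p
  let d' : C := fun p => (s (p + 1)).d' p
  have hlim : ∀ n, (s n).Ext φ d d' := by
    intro n
    have hp : ∀ p, p < (s (p + 1)).L := fun p => lt_of_lt_of_le (Nat.lt_succ_self p) (hL.id_le _)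
    exact ⟨fun p h => ((hE (p + 1) _ (le_max_left _ n)).1 p (hp p)).symm.trans
        ((hE n _ (le_max_right _ n)).1 p h),
      fun p h => ((hE (p + 1) _ (le_max_left _ n)).2.1 p (hp p)).symm.trans
        ((hE n _ (le_max_right _ n)).2.1 p h),
      fun p h => ((hE (p + 1) _ (le_max_left _ n)).2.2 p (hp p)).symm.trans
        ((hE n _ (le_max_right _ n)).2.2 p h)⟩
  have k1 : ∀ j, ∃ i, φ (Nat.pair j i) = true := fun j => by
    obtain ⟨i, a, b⟩ := h3 j (s j)
    exact ⟨i, ((hlim (j + 1)).1 _ a).trans b⟩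
  have k2 : ∀ j i, φ (Nat.pair j i) = true → d' j = d i ∧ d j = d' i := fun j i hji => by
    obtain ⟨a1, a2, a3, a4⟩ := (s (Nat.pair j i + 1)).inv j i hji
    obtain ⟨-, b2, b3⟩ := hlim (Nat.pair j i + 1)
    rw [b2 i a1, b2 j a2, b3 i a1, b3 j a2]
    exact ⟨a3, a4⟩
  obtain ⟨k, hk⟩ := h (join φ d) (join φ d') (TEq.mk' (red_match k1 fun j i e => (k2 j i e).2)
    (red_match k1 fun j i e => (k2 j i e).1))
  exact h4 k (s k) φ d d' (hlim (k + 1)) hk

theorem main_sigma {E : ℕ → C → C → Prop} (h1 : ∀ n, Equivalence (E n))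
    (h2 : ∀ x y, TEq x y ↔ ∃ n, E n x y)
    (hF : ∀ n, ∃ F : ℕ → Set (C × C), (∀ k, IsClosed (F k)) ∧
      ∀ x y, TEq x y → (E n x y ↔ ∃ k, (x, y) ∈ F k)) : Concl E := by
  choose F hF1 hF2 using hF
  obtain ⟨k, s, hs⟩ := exists_rect (fun k => F k.unpair.1 k.unpair.2) (fun k => hF1 _ _)
    (fun x y hxy => by
      obtain ⟨n, hn⟩ := (h2 x y).1 hxy
      obtain ⟨k, hk⟩ := (hF2 n x y hxy).1 hn
      exact ⟨Nat.pair n k, by simpa using hk⟩)
  let g : C → C → C := fun d w => join s.φ fun i => if i < s.L then d i else w (i - s.L)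
  have hg : ∀ d, Continuous (g d) := fun d => by
    refine Continuous.join' continuous_const (continuous_pi fun i => ?_)
    split_ifs
    · exact continuous_const
    · exact continuous_apply _
  have hinv : ∀ d w, g d w ∘ (fun i => 2 * (i + s.L) + 1) = w := fun d w => by
    funext i
    have := congrFun (snd_join s.φ fun i => if i < s.L then d i else w (i - s.L)) (i + s.L)
    simpa [snd] using this
  have hr : ∀ d w, Red w (g d w) := fun d w => by
    conv_lhs => rw [← hinv d w]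
    exact Red.comp_computable _ (Primrec.succ.comp (Primrec.nat_mul.comp (Primrec.const 2)
      (Primrec.nat_add.comp Primrec.id (Primrec.const _)))).to_comp
  obtain ⟨b, hb⟩ := exists_code' (hg s.d')
  obtain ⟨b', hb'⟩ := exists_code' (hg s.d)
  obtain ⟨t, ht, hu⟩ := exists_pointed (hg s.d)
    (fun w w' e => by rw [← hinv s.d w, e, hinv]) (hr s.d) (join b b')
  refine ⟨t, k.unpair.1, ht, fun x y hx hy => ⟨fun e => (h2 _ _).2 ⟨_, e⟩, fun hxy => ?_⟩⟩
  obtain ⟨c, hc, rfl⟩ := hu x hx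
  obtain ⟨c', -, rfl⟩ := hu y hy
  have h3 : TEq (g s.d c) (g s.d' c) :=
    TEq.mk' ((hb' c ((red_right _ _).trans hc)).trans (hr _ _))
      ((hb c ((red_left _ _).trans hc)).trans (hr _ _))
  have key : ∀ w, (g s.d w, g s.d' c) ∈ F k.unpair.1 k.unpair.2 := fun w =>
    hs _ _ (fun i hi => if_pos hi) (fun i hi => if_pos hi)
  exact (h1 _).trans ((hF2 _ _ _ h3).2 ⟨_, key c⟩)
    ((h1 _).symm ((hF2 _ _ _ (hxy.symm.trans h3)).2 ⟨_, key c'⟩))

end Pool.Agent.Lib.MP_18f39a_lc
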