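import Pool.Agent.Lib.MP_18f39a_lc.Comp

set_option autoImplicit false

open Set Topology Filter

namespace Pool.Agent.Lib.MP_18f39a_lc

def join (x y : C) : C := fun n => if n % 2 = 0 then x (n / 2) else y (n / 2)

def fst (z : C) : C := fun n => z (2 * n)

def snd (z : C) : C := fun n => z (2 * n + 1)

@[simp] theorem fst_join (x y : C) : fst (join x y) = x := by
  funext n
  simp [fst, join]

@[simp] theorem snd_join (x y : C) : snd (join x y) = y := by
  funext n
  have h1 : (2 * n + 1) % 2 = 1 := by omega
  have h2 : (2 * n + 1) / 2 = n := by omega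
  simp [snd, join, h1, h2]

theorem join_fst_snd (z : C) : join (fst z) (snd z) = z := by
  funext n
  simp only [join, fst, snd]
  split_ifs with h
  · congr 1; omega
  · congr 1; omega

theorem continuous_comp (g : ℕ → ℕ) : Continuous fun z : C => z ∘ g :=
  continuous_pi fun _ => continuous_apply _

theorem continuous_fst' : Continuous fst := continuous_pi fun _ => continuous_apply _

theorem continuous_snd' : Continuous snd := continuous_pi fun _ => continuous_apply _

theorem Continuous.join' {X : Type} [TopologicalSpace X] {f g : X → C} (hf : Continuous f)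
    (hg : Continuous g) : Continuous fun x => join (f x) (g x) := by
  refine continuous_pi fun n => ?_
  unfold join
  split_ifs
  · exact (continuous_apply _).comp hf
  · exact (continuous_apply _).comp hg

theorem Measurable.join' {X : Type} [MeasurableSpace X] {f g : X → C} (hf : Measurable f)
    (hg : Measurable g) : Measurable fun x => join (f x) (g x) := by
  refine measurable_pi_lambda _ fun n => ?_
  unfold join
  split_ifs
  · exact (measurable_pi_apply _).comp hf
  · exact (measurable_pi_apply _).comp hg

theorem red_fst (z : C) : Red (fst z) z :=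
  Red.comp_computable z (g := fun n => 2 * n)
    (Primrec.nat_mul.comp (Primrec.const 2) Primrec.id).to_comp

theorem red_snd (z : C) : Red (snd z) z :=
  Red.comp_computable z (g := fun n => 2 * n + 1)
    (Primrec.succ.comp (Primrec.nat_mul.comp (Primrec.const 2) Primrec.id)).to_comp

theorem red_left (x y : C) : Red x (join x y) := by
  simpa using red_fst (join x y)

theorem red_right (x y : C) : Red y (join x y) := by
  simpa using red_snd (join x y)

theorem Red.join {x y z : C} (hx : Red x z) (hy : Red y z) : Red (join x y) z := by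
  let F : ℕ → ℕ := fun p => if p.unpair.1 % 2 = 0 then p.unpair.2.unpair.1 else p.unpair.2.unpair.2
  have hF : Primrec F := Primrec.ite
    (Primrec.eq.comp (Primrec.nat_mod.comp (Primrec.fst.comp Primrec.unpair) (Primrec.const 2))
      (Primrec.const 0))
    (Primrec.fst.comp (Primrec.unpair.comp (Primrec.snd.comp Primrec.unpair)))
    (Primrec.snd.comp (Primrec.unpair.comp (Primrec.snd.comp Primrec.unpair)))
  have h2 : CI z (fun n => n / 2) := CI.primrec (Primrec.nat_div.comp Primrec.id (Primrec.const 2))
  refine red_iff.2 (((CI.primrec hF).comp ((CI.primrec Primrec.id).pair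
    (((red_iff.1 hx).comp h2).pair ((red_iff.1 hy).comp h2)))).of_eq fun n => ?_)
  simp only [F, Nat.unpair_pair, id, MP_18f39a_lc.join]
  split_ifs <;> rfl

/-- Parities of the maximal alternating prefixes. -/
def alt (a a' : ℕ) (w : List ℕ) : Bool × Bool :=
  w.foldr (fun c e => (if c = a then !e.2 else false, if c = a' then !e.1 else false))
    (false, false)

theorem alt_cons (a a' c : ℕ) (w : List ℕ) : alt a a' (c :: w) =
    (if c = a then !(alt a a' w).2 else false, if c = a' then !(alt a a' w).1 else false) := rfl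

theorem alt_swap (a a' : ℕ) (w : List ℕ) : alt a' a w = (alt a a' w).swap := by
  induction w with
  | nil => rfl
  | cons c w ih => rw [alt_cons, alt_cons, ih]; rfl

/-- The Schröder-Bernstein bijection. -/
def sb (a a' : ℕ) (w : List ℕ) : List ℕ := if (alt a a' w).2 = true then w.tail else a :: w

theorem alt_true {a a' : ℕ} {w : List ℕ} (h : (alt a a' w).2 = true) :
    w = a' :: w.tail ∧ (alt a a' w.tail).1 = false := by
  cases w with
  | nil => simp [alt] at h
  | cons c w =>
    rw [alt_cons] at h
    by_cases e : c = a'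
    · simpa [e] using h
    · simp [e] at h

theorem sb_sb (a a' : ℕ) (w : List ℕ) : sb a' a (sb a a' w) = w := by
  by_cases h : (alt a a' w).2 = true
  · obtain ⟨h1, h2⟩ := alt_true h
    rw [sb, sb, if_pos h, alt_swap, Prod.snd_swap, h2]
    simpa using h1.symm
  · rw [sb, sb, if_neg h, alt_cons, alt_swap]
    simp [h]

theorem primrec_sb : Primrec fun p : (ℕ × ℕ) × List ℕ => sb p.1.1 p.1.2 p.2 := by
  have h : Primrec fun p : (ℕ × ℕ) × List ℕ => alt p.1.1 p.1.2 p.2 := by
    refine (Primrec.list_foldr (f := fun p : (ℕ × ℕ) × List ℕ => p.2)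
      (g := fun _ => (false, false))
      (h := fun p q => (if q.1 = p.1.1 then !q.2.2 else false, if q.1 = p.1.2 then !q.2.1 else false))
      Primrec.snd (Primrec.const _) ?_).of_eq fun p => rfl
    refine Primrec.pair (Primrec.ite ?_ ?_ (Primrec.const _)) (Primrec.ite ?_ ?_ (Primrec.const _))
    · exact Primrec.eq.comp (Primrec.fst.comp Primrec.snd)
        (Primrec.fst.comp (Primrec.fst.comp Primrec.fst))
    · exact Primrec.not.comp (Primrec.snd.comp (Primrec.snd.comp Primrec.snd))
    · exact Primrec.eq.comp (Primrec.fst.comp Primrec.snd)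
        (Primrec.snd.comp (Primrec.fst.comp Primrec.fst))
    · exact Primrec.not.comp (Primrec.fst.comp (Primrec.snd.comp Primrec.snd))
  exact Primrec.ite (Primrec.eq.comp (Primrec.snd.comp h) (Primrec.const _))
    (Primrec.list_tail.comp Primrec.snd)
    (Primrec.list_cons.comp (Primrec.fst.comp Primrec.fst) Primrec.snd)

/-- The action on codes. -/
def hh (i r : ℕ) : ℕ :=
  Nat.pair (Encodable.encode (sb i.unpair.1 i.unpair.2 (Denumerable.ofNat (List ℕ) r.unpair.1)))
    r.unpair.2

theorem hh_hh (a a' r : ℕ) : hh (Nat.pair a' a) (hh (Nat.pair a a') r) = r := by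
  simp [hh, sb_sb]

theorem primrec_hh : Primrec₂ hh := by
  refine Primrec₂.natPair.comp (Primrec.encode.comp (primrec_sb.comp
    (Primrec.pair (Primrec.unpair.comp Primrec.fst) ?_)))
    (Primrec.snd.comp (Primrec.unpair.comp Primrec.snd))
  exact (Primrec.ofNat (List ℕ)).comp (Primrec.fst.comp (Primrec.unpair.comp Primrec.snd))

def swp (i : ℕ) : ℕ := Nat.pair i.unpair.2 i.unpair.1

theorem hh_swp (i r : ℕ) : hh (swp i) (hh i r) = r := by
  have := hh_hh i.unpair.1 i.unpair.2 r
  rwa [Nat.pair_unpair] at this

theorem swp_swp (i : ℕ) : swp (swp i) = i := by simp [swp]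

/-- First generator. -/
def permS : ℕ ≃ ℕ where
  toFun n := Nat.pair n.unpair.1 (hh (n.unpair.1 / 2) n.unpair.2)
  invFun n := Nat.pair n.unpair.1 (hh (swp (n.unpair.1 / 2)) n.unpair.2)
  left_inv n := by simp [hh_swp]
  right_inv n := by
    have := hh_swp (swp (n.unpair.1 / 2)) n.unpair.2
    rw [swp_swp] at this
    simp [this]

def sh (p : ℕ) : ℕ := if p % 2 = 0 then p + 2 else if p = 1 then 0 else p - 2

def sh' (p : ℕ) : ℕ := if p % 2 = 1 then p + 2 else if p = 0 then 1 else p - 2

theorem sh_spec (p : ℕ) : (p % 2 = 0 ∧ sh p = p + 2) ∨ (p = 1 ∧ sh p = 0) ∨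
    (p % 2 = 1 ∧ p ≠ 1 ∧ sh p = p - 2) := by
  unfold sh
  split_ifs with h1 h2
  · exact Or.inl ⟨h1, rfl⟩
  · exact Or.inr (Or.inl ⟨h2, rfl⟩)
  · exact Or.inr (Or.inr ⟨by omega, h2, rfl⟩)

theorem sh'_spec (p : ℕ) : (p % 2 = 1 ∧ sh' p = p + 2) ∨ (p = 0 ∧ sh' p = 1) ∨
    (p % 2 = 0 ∧ p ≠ 0 ∧ sh' p = p - 2) := by
  unfold sh'
  split_ifs with h1 h2
  · exact Or.inl ⟨h1, rfl⟩
  · exact Or.inr (Or.inl ⟨h2, rfl⟩)
  · exact Or.inr (Or.inr ⟨by omega, h2, rfl⟩)

/-- Second generator. -/
def permT : ℕ ≃ ℕ where
  toFun n := Nat.pair (sh n.unpair.1) n.unpair.2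
  invFun n := Nat.pair (sh' n.unpair.1) n.unpair.2
  left_inv n := by
    have : ∀ p, sh' (sh p) = p := fun p => by
      have := sh_spec p
      have := sh'_spec (sh p)
      omega
    simp [this]
  right_inv n := by
    have : ∀ p, sh (sh' p) = p := fun p => by
      have := sh'_spec p
      have := sh_spec (sh' p)
      omega
    simp [this]

theorem primrec_permS : Primrec permS :=
  Primrec₂.natPair.comp (Primrec.fst.comp Primrec.unpair) (primrec_hh.comp
    (Primrec.nat_div.comp (Primrec.fst.comp Primrec.unpair) (Primrec.const 2))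
    (Primrec.snd.comp Primrec.unpair))

theorem primrec_permT : Primrec permT := by
  have : Primrec sh := Primrec.ite
    (Primrec.eq.comp (Primrec.nat_mod.comp Primrec.id (Primrec.const 2)) (Primrec.const 0))
    (Primrec.nat_add.comp Primrec.id (Primrec.const 2))
    (Primrec.ite (Primrec.eq.comp Primrec.id (Primrec.const 1)) (Primrec.const 0)
      (Primrec.nat_sub.comp Primrec.id (Primrec.const 2)))
  exact Primrec₂.natPair.comp (this.comp (Primrec.fst.comp Primrec.unpair))
    (Primrec.snd.comp Primrec.unpair)

def slot (i : ℕ) (U : C) : C := fun n => if n.unpair.1 = 2 * i then U n.unpair.2 else false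

theorem slot_T (i : ℕ) (U : C) : slot (i + 1) U ∘ permT = slot i U := by
  funext n
  have : sh n.unpair.1 = 2 * (i + 1) ↔ n.unpair.1 = 2 * i := by
    have := sh_spec n.unpair.1
    omega
  simp only [Function.comp, slot, permT, Equiv.coe_fn_mk, Nat.unpair_pair, this]

theorem slot_S (i : ℕ) (U : C) : slot i U ∘ permS = slot i (U ∘ hh i) := by
  funext n
  simp only [Function.comp, slot, permS, Equiv.coe_fn_mk, Nat.unpair_pair]
  split_ifs with h
  · rw [h]; simp
  · rfl

theorem red_slot (i : ℕ) (U : C) : Red U (slot i U) := by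
  have : U = slot i U ∘ fun r => Nat.pair (2 * i) r := by
    funext r; simp [slot]
  conv_lhs => rw [this]
  exact Red.comp_computable _ (Primrec₂.natPair.comp (Primrec.const _) Primrec.id).to_comp

theorem continuous_slot (i : ℕ) : Continuous (slot i) := by
  refine continuous_pi fun n => ?_
  unfold slot
  split_ifs
  · exact continuous_apply _
  · exact continuous_const

/-- Two permutations suffice. -/
theorem slot_rel {Q : C → C → Prop} (hQ : Equivalence Q) {b : C}
    (hS : ∀ u, Red b u → Q u (u ∘ permS)) (hT : ∀ u, Red b u → Q u (u ∘ permT))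
    {U : C} (i : ℕ) (hU : Red b U) (hU' : Red b (U ∘ hh i)) :
    Q (slot 0 U) (slot 0 (U ∘ hh i)) := by
  have key : ∀ V, Red b V → ∀ j, Q (slot j V) (slot 0 V) := by
    intro V hV j
    induction j with
    | zero => exact hQ.refl _
    | succ j ih =>
      have := hT _ (hV.trans (red_slot (j + 1) V))
      rw [slot_T] at this
      exact hQ.trans this ih
  have := hS _ (hU.trans (red_slot i U))
  rw [slot_S] at this
  exact hQ.trans (hQ.symm (key U hU i)) (hQ.trans this (key _ hU' i))

/-- The table of all iterates. -/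
def tab (Φ : ℕ → C → C) (x : C) : C := fun r =>
  (Denumerable.ofNat (List ℕ) r.unpair.1).foldl (fun z c => Φ c z) x r.unpair.2

theorem continuous_tab {Φ : ℕ → C → C} (h : ∀ a, Continuous (Φ a)) : Continuous (tab Φ) := by
  have : ∀ w : List ℕ, Continuous fun x => w.foldl (fun z c => Φ c z) x := by
    intro w
    induction w with
    | nil => exact continuous_id
    | cons c w ih => exact ih.comp (h c)
  exact continuous_pi fun r => (continuous_apply _).comp (this _)

theorem tab_rel {Φ : ℕ → C → C} {x y : C} {a a' : ℕ} (h : Φ a x = y) (h' : Φ a' y = x) :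
    tab Φ y = tab Φ x ∘ hh (Nat.pair a a') := by
  funext r
  simp only [tab, Function.comp, hh, Nat.unpair_pair, Denumerable.ofNat_encode, sb]
  split_ifs with e
  · obtain ⟨h1, -⟩ := alt_true e
    conv_lhs => rw [h1]
    rw [List.foldl_cons, h']
  · rw [List.foldl_cons, h]

/-- Index of a column of the table. -/
def colI (w : List ℕ) (k : ℕ) : ℕ := Nat.pair (Encodable.encode w) k

theorem tab_nil (Φ : ℕ → C → C) (x : C) : tab Φ x ∘ colI [] = x := by
  funext k
  simp only [tab, colI, Function.comp, Nat.unpair_pair, Denumerable.ofNat_encode, List.foldl_nil]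

theorem tab_one (Φ : ℕ → C → C) (x : C) (a : ℕ) : tab Φ x ∘ colI [a] = Φ a x := by
  funext k
  simp only [tab, colI, Function.comp, Nat.unpair_pair, Denumerable.ofNat_encode, List.foldl_cons,
    List.foldl_nil]

theorem red_col (u : C) (w : List ℕ) : Red (u ∘ colI w) u :=
  Red.comp_computable _ (Primrec₂.natPair.comp (Primrec.const _) Primrec.id).to_comp

theorem red_tab (Φ : ℕ → C → C) (x : C) : Red x (tab Φ x) := by
  simpa [tab_nil] using red_col (tab Φ x) []

theorem red_tab_one (Φ : ℕ → C → C) (x : C) (a : ℕ) : Red (Φ a x) (tab Φ x) := by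
  simpa [tab_one] using red_col (tab Φ x) [a]

end Pool.Agent.Lib.MP_18f39a_lc
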